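import Mathlib

set_option autoImplicit false

/-!
# Maximal density versus maximal upper density for geometric-progression-free sets

We prove alpha < alphaBar (problem MP_9f86c8_nt, Q1).

Outline. Suppose alphaBar ≤ alpha. Then there is a progression-free set A whose counting
function is at least (alphaBar - 1/M^2) N for all large N, while (gluing, finite_bound) no
progression-free subset of {1,...,N} has more than (alphaBar + 1/M^2) N elements.
* Exchange (window, U_bound): adding to A all non-members in the window from (1-1/M)N to N that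
  are not the largest term of a progression with two terms in A, and deleting the elements of the
  window divisible by some u^2 with u > M, gives a progression-free set. Hence the set (Uset A)
  of such non-members has upper density at most 4/M: A is almost greedy.
* Descent (descent, compare): if n is in the greedy set S of Rankin but not in A, and is not in
  (Uset A), then some n' = (i/j) n with j ≤ rt(n)^6 is in S, not in A, and has a strictly
  smaller square part rt. Hence A exceeds S by at most (C_ρ 4/M + 1/ρ) N + O(1) elements.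
* S is not optimal (Bset): replacing the 2-power exponents {0,1,3,4} by {0,1,3,7,8} for the odd
  parts r with N/512 < r ≤ N/256 gives a progression-free set with at least N/4096 more
  elements, so S has at most (alphaBar - 1/4096 + ε) N elements up to N.
For suitable ρ and then M these facts contradict each other.
-/

namespace Pool.Agent.Results.MP_9f86c8_nt.StrictInequality

/-! ### Definitions used in the statement -/

/-- `A` contains no three-term geometric progression: there are no `a < b < c` in `A` with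
`a * c = b ^ 2`. -/
def GPFree (A : Set ℕ) : Prop :=
  ∀ a ∈ A, ∀ b ∈ A, ∀ c ∈ A, a < b → b < c → a * c ≠ b ^ 2

open Classical in
/-- The number of elements of `A` in `{1, ..., N}`. -/
noncomputable def cnt (A : Set ℕ) (N : ℕ) : ℕ := ((Finset.Icc 1 N).filter (fun n => n ∈ A)).card

/-- Upper asymptotic density. -/
noncomputable def upperDensity (A : Set ℕ) : ℝ :=
  Filter.limsup (fun N : ℕ => (cnt A N : ℝ) / N) Filter.atTop

/-- `A` has asymptotic density `d`. -/
def HasDensity (A : Set ℕ) (d : ℝ) : Prop :=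
  Filter.Tendsto (fun N : ℕ => (cnt A N : ℝ) / N) Filter.atTop (nhds d)

/-- The supremum of the upper densities of progression-free sets of positive integers. -/
noncomputable def alphaBar : ℝ :=
  sSup {d : ℝ | ∃ A : Set ℕ, 0 ∉ A ∧ GPFree A ∧ d = upperDensity A}

/-- The supremum of the densities of progression-free sets of positive integers that have an
asymptotic density. -/
noncomputable def alpha : ℝ :=
  sSup {d : ℝ | ∃ A : Set ℕ, 0 ∉ A ∧ GPFree A ∧ HasDensity A d}

/-! ### Digits: the set of naturals without digit 2 in base 3 -/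

/-- `good e`: the base-3 expansion of `e` has no digit 2. -/
def good : ℕ → Prop
  | 0 => True
  | (n + 1) => (n + 1) % 3 ≠ 2 ∧ good ((n + 1) / 3)
decreasing_by omega

theorem good_zero : good 0 := by unfold good; trivial

theorem good_iff {e : ℕ} (he : e ≠ 0) : good e ↔ e % 3 ≠ 2 ∧ good (e / 3) := by
  obtain ⟨n, rfl⟩ := Nat.exists_eq_succ_of_ne_zero he
  rw [Nat.succ_eq_add_one]
  conv_lhs => unfold good

theorem good_iff' (e : ℕ) : good e ↔ e % 3 ≠ 2 ∧ good (e / 3) := by
  rcases Nat.eq_zero_or_pos e with h | h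
  · subst h; simp [good_zero]
  · exact good_iff (by omega)

theorem good_one : good 1 := by rw [good_iff' 1]; norm_num [good_zero]

/-- base-3 digits 2 replaced by 1, others by 0. -/
def tt : ℕ → ℕ
  | 0 => 0
  | (n + 1) => 3 * tt ((n + 1) / 3) + (if (n + 1) % 3 = 2 then 1 else 0)
decreasing_by omega

theorem tt_zero : tt 0 = 0 := by unfold tt; rfl

theorem tt_eq (e : ℕ) : tt e = 3 * tt (e / 3) + (if e % 3 = 2 then 1 else 0) := by
  rcases Nat.eq_zero_or_pos e with h | h
  · subst h; simp [tt_zero]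
  · obtain ⟨n, rfl⟩ := Nat.exists_eq_succ_of_ne_zero (show e ≠ 0 by omega)
    rw [Nat.succ_eq_add_one]
    conv_lhs => unfold tt

/-- `e = x + 2 tt e` with `x`, `x + tt e` good, and `tt e = 0` iff `e` is good. -/
theorem tt_spec (e : ℕ) : 2 * tt e ≤ e ∧ good (e - tt e) ∧ good (e - 2 * tt e) ∧
    (good e ↔ tt e = 0) := by
  induction e using Nat.strong_induction_on with
  | _ e ih =>
    rcases Nat.eq_zero_or_pos e with h | h
    · subst h; simp [tt_zero, good_zero]
    · obtain ⟨h1, h2, h3, h4⟩ := ih (e / 3) (by omega)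
      have ht := tt_eq e
      set y := tt (e / 3) with hy
      have hmod : e % 3 < 3 := Nat.mod_lt _ (by norm_num)
      have hdm := Nat.div_add_mod e 3
      by_cases h2' : e % 3 = 2
      · rw [if_pos h2'] at ht
        refine ⟨by omega, ?_, ?_, ?_⟩
        · rw [good_iff']
          have e1 : (e - tt e) % 3 = 1 := by omega
          have e2 : (e - tt e) / 3 = e / 3 - y := by omega
          rw [e1, e2]; exact ⟨by norm_num, h2⟩
        · rw [good_iff']
          have e1 : (e - 2 * tt e) % 3 = 0 := by omega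
          have e2 : (e - 2 * tt e) / 3 = e / 3 - 2 * y := by omega
          rw [e1, e2]; exact ⟨by norm_num, h3⟩
        · rw [good_iff' e]
          constructor
          · intro h; exact absurd h2' h.1
          · intro h; omega
      · rw [if_neg h2'] at ht
        refine ⟨by omega, ?_, ?_, ?_⟩
        · rw [good_iff']
          have e1 : (e - tt e) % 3 = e % 3 := by omega
          have e2 : (e - tt e) / 3 = e / 3 - y := by omega
          rw [e1, e2]; exact ⟨h2', h2⟩
        · rw [good_iff']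
          have e1 : (e - 2 * tt e) % 3 = e % 3 := by omega
          have e2 : (e - 2 * tt e) / 3 = e / 3 - 2 * y := by omega
          rw [e1, e2]; exact ⟨h2', h3⟩
        · rw [good_iff' e, h4]
          constructor
          · intro h; omega
          · intro h; exact ⟨h2', by omega⟩

/-- No nontrivial 3-term AP in the good numbers. -/
theorem good_ap (x y z : ℕ) (hx : good x) (hy : good y) (hz : good z) (h : x + z = 2 * y) :
    x = z := by
  induction y using Nat.strong_induction_on generalizing x z with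
  | _ y ih =>
    rcases Nat.eq_zero_or_pos y with h0 | h0
    · omega
    · rw [good_iff'] at hx hy hz
      have h1 : x % 3 = z % 3 := by omega
      have h2 : x / 3 + z / 3 = 2 * (y / 3) := by omega
      have := ih (y / 3) (by omega) (x / 3) (z / 3) hx.2 hy.2 hz.2 h2
      omega

theorem good_le_eight (e : ℕ) (h : good e) (he : e ≤ 8) : e = 0 ∨ e = 1 ∨ e = 3 ∨ e = 4 := by
  rw [good_iff', good_iff'] at h
  omega

theorem not_good_seven : ¬ good 7 := by
  intro h; rw [good_iff', good_iff'] at h; omega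

theorem not_good_eight : ¬ good 8 := by
  intro h; rw [good_iff', good_iff'] at h; omega

/-! ### The Rankin set `S` and the square root part -/

/-- Rankin's set. -/
def S : Set ℕ := {n | n ≠ 0 ∧ ∀ p, good (n.factorization p)}

/-- The number whose exponent at each prime `p` is `f` of the exponent of `n`. -/
noncomputable def build (f : ℕ → ℕ) (hf : f 0 = 0) (n : ℕ) : ℕ :=
  (n.factorization.mapRange f hf).prod (fun p k => p ^ k)

theorem build_fact (f : ℕ → ℕ) (hf : f 0 = 0) (n : ℕ) (p : ℕ) :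
    (build f hf n).factorization p = f (n.factorization p) := by
  have h : (build f hf n).factorization = n.factorization.mapRange f hf := by
    apply Nat.prod_pow_factorization_eq_self
    intro q hq
    have : q ∈ n.factorization.support := by
      rw [Finsupp.mem_support_iff] at hq ⊢
      intro h0
      apply hq
      rw [Finsupp.mapRange_apply, h0, hf]
    exact Nat.prime_of_mem_primeFactors (by simpa using this)
  rw [h, Finsupp.mapRange_apply]

theorem build_ne_zero (f : ℕ → ℕ) (hf : f 0 = 0) (n : ℕ) : build f hf n ≠ 0 := by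
  unfold build
  rw [Finsupp.prod, Finset.prod_ne_zero_iff]
  intro q hq
  have : q ∈ n.factorization.support := by
    rw [Finsupp.mem_support_iff] at hq ⊢
    intro h0
    apply hq
    rw [Finsupp.mapRange_apply, h0, hf]
  have hp := Nat.prime_of_mem_primeFactors (n := n) (by simpa using this)
  exact pow_ne_zero _ hp.ne_zero

/-- The largest `r` with `r ^ 2 ∣ n` (for `n ≠ 0`). -/
noncomputable def rt (n : ℕ) : ℕ := build (fun k => k / 2) (by norm_num) n

theorem rt_fact (n : ℕ) (p : ℕ) : (rt n).factorization p = n.factorization p / 2 :=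
  build_fact _ _ n p

theorem rt_ne_zero (n : ℕ) : rt n ≠ 0 := build_ne_zero _ _ n

theorem dvd_of_fact {a b : ℕ} (ha : a ≠ 0) (hb : b ≠ 0)
    (h : ∀ p, a.factorization p ≤ b.factorization p) : a ∣ b :=
  (Nat.factorization_le_iff_dvd ha hb).mp (fun p => h p)

theorem fact_le {a b : ℕ} (hb : b ≠ 0) (h : a ∣ b) (p : ℕ) :
    a.factorization p ≤ b.factorization p := by
  have ha : a ≠ 0 := fun h0 => hb (by rw [h0, zero_dvd_iff] at h; exact h)
  exact (Nat.factorization_le_iff_dvd ha hb).mpr h p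

theorem rt_sq_dvd {n : ℕ} (hn : n ≠ 0) : rt n ^ 2 ∣ n := by
  apply dvd_of_fact (pow_ne_zero _ (rt_ne_zero n)) hn
  intro p
  rw [Nat.factorization_pow, Finsupp.smul_apply, rt_fact, smul_eq_mul]
  omega

theorem dvd_rt {n r : ℕ} (hn : n ≠ 0) (h : r ^ 2 ∣ n) : r ∣ rt n := by
  have hr : r ≠ 0 := by
    rintro rfl
    rw [zero_pow (by norm_num), zero_dvd_iff] at h
    exact hn h
  apply dvd_of_fact hr (rt_ne_zero n)
  intro p
  have := fact_le hn h p
  rw [Nat.factorization_pow, Finsupp.smul_apply, smul_eq_mul] at this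
  rw [rt_fact]
  omega

theorem le_rt {n r : ℕ} (hn : n ≠ 0) (h : r ^ 2 ∣ n) : r ≤ rt n :=
  Nat.le_of_dvd (Nat.pos_of_ne_zero (rt_ne_zero n)) (dvd_rt hn h)

theorem rt_le_of_dvd {m n : ℕ} (hn : n ≠ 0) (h : m ∣ n) : rt m ≤ rt n := by
  apply Nat.le_of_dvd (Nat.pos_of_ne_zero (rt_ne_zero n))
  apply dvd_of_fact (rt_ne_zero m) (rt_ne_zero n)
  intro p
  rw [rt_fact, rt_fact]
  exact Nat.div_le_div_right (fact_le hn h p)

theorem rt_mul_sq {m k : ℕ} (hm : m ≠ 0) (hk : k ≠ 0) : rt (m * k ^ 2) = k * rt m := by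
  apply Nat.eq_of_factorization_eq (rt_ne_zero _) (mul_ne_zero hk (rt_ne_zero m))
  intro p
  rw [rt_fact, Nat.factorization_mul hm (pow_ne_zero _ hk),
    Nat.factorization_mul hk (rt_ne_zero m), Finsupp.add_apply, Finsupp.add_apply, rt_fact,
    Nat.factorization_pow, Finsupp.smul_apply, smul_eq_mul]
  omega

/-- The canonical square divisor: for `n ∉ S`, `(n / w^2, n / w, n)` is a progression with the
first two terms in `S`. -/
noncomputable def ww (n : ℕ) : ℕ := build tt tt_zero n

theorem ww_fact (n : ℕ) (p : ℕ) : (ww n).factorization p = tt (n.factorization p) :=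
  build_fact _ _ n p

theorem ww_ne_zero (n : ℕ) : ww n ≠ 0 := build_ne_zero _ _ n

theorem ww_sq_dvd {n : ℕ} (hn : n ≠ 0) : ww n ^ 2 ∣ n := by
  apply dvd_of_fact (pow_ne_zero _ (ww_ne_zero n)) hn
  intro p
  rw [Nat.factorization_pow, Finsupp.smul_apply, ww_fact, smul_eq_mul]
  exact (tt_spec _).1

theorem ww_dvd {n : ℕ} (hn : n ≠ 0) : ww n ∣ n :=
  (dvd_pow_self _ (by norm_num)).trans (ww_sq_dvd hn)

theorem div_fact {n w : ℕ} (h : w ∣ n) (p : ℕ) :
    (n / w).factorization p = n.factorization p - w.factorization p := by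
  rw [Nat.factorization_div h, Finsupp.tsub_apply]

theorem div_ww_mem {n : ℕ} (hn : n ≠ 0) : n / ww n ∈ S := by
  refine ⟨?_, ?_⟩
  · exact (Nat.div_pos (Nat.le_of_dvd (Nat.pos_of_ne_zero hn) (ww_dvd hn))
      (Nat.pos_of_ne_zero (ww_ne_zero n))).ne'
  · intro p
    rw [div_fact (ww_dvd hn), ww_fact]
    exact (tt_spec _).2.1

theorem div_ww_sq_mem {n : ℕ} (hn : n ≠ 0) : n / ww n ^ 2 ∈ S := by
  refine ⟨?_, ?_⟩
  · exact (Nat.div_pos (Nat.le_of_dvd (Nat.pos_of_ne_zero hn) (ww_sq_dvd hn))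
      (Nat.pos_of_ne_zero (pow_ne_zero _ (ww_ne_zero n)))).ne'
  · intro p
    rw [div_fact (ww_sq_dvd hn), Nat.factorization_pow, Finsupp.smul_apply, ww_fact, smul_eq_mul]
    exact (tt_spec _).2.2.1

theorem ww_eq_one_iff {n : ℕ} (hn : n ≠ 0) : n ∈ S ↔ ww n = 1 := by
  constructor
  · intro h
    apply Nat.eq_of_factorization_eq (ww_ne_zero n) one_ne_zero
    intro p
    rw [ww_fact, Nat.factorization_one, Finsupp.zero_apply]
    exact (tt_spec _).2.2.2.mp (h.2 p)
  · intro h
    refine ⟨hn, fun p => ?_⟩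
    rw [(tt_spec _).2.2.2, ← ww_fact, h, Nat.factorization_one, Finsupp.zero_apply]

/-! ### Geometric progressions -/

theorem gp_fact {a b c : ℕ} (ha : a ≠ 0) (hc : c ≠ 0) (h : a * c = b ^ 2) (p : ℕ) :
    a.factorization p + c.factorization p = 2 * b.factorization p := by
  have := congrArg (fun n => n.factorization p) h
  simpa [Nat.factorization_mul ha hc, Nat.factorization_pow] using this

/-- Three elements of `S` in geometric progression are equal. -/
theorem S_gp {a b c : ℕ} (ha : a ∈ S) (hb : b ∈ S) (hc : c ∈ S) (h : a * c = b ^ 2) : a = c := by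
  apply Nat.eq_of_factorization_eq ha.1 hc.1
  intro p
  exact good_ap _ _ _ (ha.2 p) (hb.2 p) (hc.2 p) (gp_fact ha.1 hc.1 h p)

/-- Parametrisation of progressions. -/
theorem gp_param {a b c : ℕ} (ha : 0 < a) (hab : a < b) (hbc : b < c) (h : a * c = b ^ 2) :
    ∃ m u v : ℕ, 0 < m ∧ 0 < v ∧ v < u ∧ a = m * v ^ 2 ∧ b = m * u * v ∧ c = m * u ^ 2 := by
  have hb : 0 < b := ha.trans hab
  have hc : 0 < c := hb.trans hbc
  obtain ⟨g, v, u, hg, hcop, hbv, hcu⟩ : ∃ g v u : ℕ, 0 < g ∧ Nat.Coprime v u ∧ b = v * g ∧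
      c = u * g := by
    obtain ⟨v, u, h1, h2, h3⟩ := Nat.exists_coprime b c
    exact ⟨Nat.gcd b c, v, u, Nat.gcd_pos_of_pos_left _ hb, h1, h2, h3⟩
  have hv : 0 < v := by
    rcases Nat.eq_zero_or_pos v with h0 | h0
    · subst h0; omega
    · exact h0
  have hu : 0 < u := by
    rcases Nat.eq_zero_or_pos u with h0 | h0
    · subst h0; omega
    · exact h0
  have h1 : a * u = g * v ^ 2 := by
    have : g * (a * u) = g * (g * v ^ 2) := by
      have h' := h
      rw [hbv, hcu] at h'
      nlinarith [h']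
    exact Nat.eq_of_mul_eq_mul_left hg this
  have h2 : u ∣ g := by
    have : u ∣ g * v ^ 2 := ⟨a, by rw [← h1]; ring⟩
    exact (Nat.Coprime.pow_right 2 hcop.symm).dvd_of_dvd_mul_right this
  obtain ⟨m, hm⟩ := h2
  refine ⟨m, u, v, ?_, hv, ?_, ?_, ?_, ?_⟩
  · rcases Nat.eq_zero_or_pos m with h0 | h0
    · subst h0; omega
    · exact h0
  · rw [hbv, hcu] at hbc
    exact Nat.lt_of_mul_lt_mul_right hbc
  · have : u * a = u * (m * v ^ 2) := by rw [mul_comm u a, h1, hm]; ring
    exact Nat.eq_of_mul_eq_mul_left hu this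
  · rw [hbv, hm]; ring
  · rw [hcu, hm]; ring

/-- If `c ∉ S` then `w = ww c` gives a progression `c / w ^ 2 < c / w < c`; if moreover `c ∈ A`
with `A` free of progressions, one of the two smaller terms is not in `A`. -/
theorem typeOne {A : Set ℕ} (hA : GPFree A) {c : ℕ} (hc0 : c ≠ 0) (hcS : c ∉ S) (hcA : c ∈ A) :
    ∃ n' ∈ S, n' ∉ A ∧ (n' = c / ww c ∨ n' = c / ww c ^ 2) := by
  have hw1 : ww c ≠ 1 := fun h => hcS ((ww_eq_one_iff hc0).mpr h)
  have hw0 := ww_ne_zero c
  have hw2 : 2 ≤ ww c := by omega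
  obtain ⟨m, hm⟩ := ww_sq_dvd hc0
  set w := ww c with hw
  have hm0 : 0 < m := by
    rcases Nat.eq_zero_or_pos m with h | h
    · subst h; simp at hm; exact absurd hm hc0
    · exact h
  have e1 : c / w = w * m := by
    rw [hm]; apply Nat.div_eq_of_eq_mul_right (by omega); ring
  have e2 : c / w ^ 2 = m := by
    rw [hm]; apply Nat.div_eq_of_eq_mul_right (by positivity); ring
  by_cases h1 : c / w ∈ A
  · by_cases h2 : c / w ^ 2 ∈ A
    · exfalso
      refine hA _ h2 _ h1 _ hcA ?_ ?_ ?_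
      · rw [e1, e2]; nlinarith
      · rw [e1, hm]; nlinarith [Nat.mul_pos (show 0 < w by omega) hm0]
      · rw [e1, e2, hm]; ring
    · exact ⟨_, div_ww_sq_mem hc0, h2, Or.inr rfl⟩
  · exact ⟨_, div_ww_mem hc0, h1, Or.inl rfl⟩

theorem rt_pos (n : ℕ) : 0 < rt n := Nat.pos_of_ne_zero (rt_ne_zero n)

/-- The descent step. -/
theorem descent {A : Set ℕ} (h0 : 0 ∉ A) (hA : GPFree A) {n : ℕ} (hn : n ∈ S) {a b : ℕ}
    (ha : a ∈ A) (hb : b ∈ A) (hab : a < b) (hbn : b < n) (h : a * n = b ^ 2) :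
    ∃ n' ∈ S, n' ∉ A ∧ rt n' < rt n ∧
      ∃ i j : ℕ, 0 < i ∧ i ≤ j ∧ j ≤ (rt n) ^ 6 ∧ j * n' = i * n := by
  have ha0 : a ≠ 0 := fun h' => h0 (h' ▸ ha)
  have hb0 : b ≠ 0 := by omega
  have hn0 : n ≠ 0 := hn.1
  obtain ⟨m, u, v, hm, hv, hvu, ea, eb, en⟩ := gp_param (Nat.pos_of_ne_zero ha0) hab hbn h
  have hu : 0 < u := by omega
  have rta : rt a = v * rt m := by rw [ea]; exact rt_mul_sq hm.ne' hv.ne'
  have rtn : rt n = u * rt m := by rw [en]; exact rt_mul_sq hm.ne' hu.ne'
  have hlt : rt a < rt n := by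
    rw [rta, rtn]; exact Nat.mul_lt_mul_of_pos_right hvu (rt_pos m)
  have hurt : u ≤ rt n := by rw [rtn]; exact Nat.le_mul_of_pos_right _ (rt_pos m)
  have hr1 : 1 ≤ rt n := rt_pos n
  by_cases haS : a ∈ S
  · have hbS : b ∉ S := by
      intro hbS
      have := S_gp haS hbS hn h
      omega
    obtain ⟨n', hn'S, hn'A, hn'⟩ := typeOne hA hb0 hbS hb
    have hfact : ∀ p, a.factorization p + n.factorization p = 2 * b.factorization p :=
      gp_fact ha0 hn0 h
    -- at each prime either all exponents agree or the exponent of b is not good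
    have hbad : ∀ p, a.factorization p ≠ n.factorization p → 1 ≤ tt (b.factorization p) := by
      intro p hne
      by_contra hlt'
      have : tt (b.factorization p) = 0 := by omega
      have hg := (tt_spec _).2.2.2.mpr this
      exact hne (good_ap _ _ _ (haS.2 p) hg (hn.2 p) (hfact p))
    have hgood : ∀ p, a.factorization p = n.factorization p → tt (b.factorization p) = 0 := by
      intro p he
      have : b.factorization p = n.factorization p := by have := hfact p; omega
      rw [this]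
      exact (tt_spec _).2.2.2.mp (hn.2 p)
    have hwdvd : ww b ∣ rt n * rt a := by
      apply dvd_of_fact (ww_ne_zero b) (mul_ne_zero (rt_ne_zero n) (rt_ne_zero a))
      intro p
      rw [ww_fact, Nat.factorization_mul (rt_ne_zero n) (rt_ne_zero a), Finsupp.add_apply,
        rt_fact, rt_fact]
      by_cases he : a.factorization p = n.factorization p
      · rw [hgood p he]; exact Nat.zero_le _
      · have h1 := (tt_spec (b.factorization p)).1
        have h2 := hfact p
        omega
    have hw_le : ww b ≤ rt n ^ 2 := by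
      have h1 : ww b ≤ rt n * rt a :=
        Nat.le_of_dvd (Nat.mul_pos (rt_pos n) (rt_pos a)) hwdvd
      nlinarith
    have hrt : rt (b / ww b) < rt n := by
      have hd : rt (b / ww b) ^ 2 ∣ rt n * rt a := by
        apply dvd_of_fact (pow_ne_zero _ (rt_ne_zero _))
          (mul_ne_zero (rt_ne_zero n) (rt_ne_zero a))
        intro p
        rw [Nat.factorization_mul (rt_ne_zero n) (rt_ne_zero a), Finsupp.add_apply,
          Nat.factorization_pow, Finsupp.smul_apply, smul_eq_mul, rt_fact, rt_fact, rt_fact,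
          div_fact (ww_dvd hb0), ww_fact]
        have h2 := hfact p
        by_cases he : a.factorization p = n.factorization p
        · rw [hgood p he]; omega
        · have := hbad p he
          omega
      have h1 : rt (b / ww b) ^ 2 ≤ rt n * rt a :=
        Nat.le_of_dvd (Nat.mul_pos (rt_pos n) (rt_pos a)) hd
      by_contra hcon
      push Not at hcon
      have : rt n ^ 2 ≤ rt (b / ww b) ^ 2 := Nat.pow_le_pow_left hcon 2
      nlinarith
    have hbw : b / ww b ≠ 0 := (div_ww_mem hb0).1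
    have hww := ww_ne_zero b
    have hub : u * b = v * n := by rw [eb, en]; ring
    rcases hn' with rfl | rfl
    · refine ⟨_, hn'S, hn'A, hrt, v, u * ww b, hv, ?_, ?_, ?_⟩
      · nlinarith [Nat.pos_of_ne_zero hww]
      · calc u * ww b ≤ rt n * rt n ^ 2 := Nat.mul_le_mul hurt hw_le
          _ = rt n ^ 3 := by ring
          _ ≤ rt n ^ 6 := Nat.pow_le_pow_right hr1 (by norm_num)
      · rw [mul_assoc, Nat.mul_div_cancel' (ww_dvd hb0), hub]
    · refine ⟨_, hn'S, hn'A, lt_of_le_of_lt ?_ hrt, v, u * ww b ^ 2, hv, ?_, ?_, ?_⟩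
      · apply rt_le_of_dvd hbw
        obtain ⟨k, hk⟩ := ww_sq_dvd hb0
        have hwpos := Nat.pos_of_ne_zero hww
        have e1 : b / ww b = ww b * k := by
          apply Nat.div_eq_of_eq_mul_right hwpos
          conv_lhs => rw [hk]
          ring
        have e2 : b / ww b ^ 2 = k := by
          apply Nat.div_eq_of_eq_mul_right (by positivity)
          exact hk
        rw [e1, e2]; exact dvd_mul_left _ _
      · have : 1 ≤ ww b ^ 2 := Nat.one_le_pow _ _ (Nat.pos_of_ne_zero hww)
        nlinarith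
      · calc u * ww b ^ 2 ≤ rt n * (rt n ^ 2) ^ 2 :=
              Nat.mul_le_mul hurt (Nat.pow_le_pow_left hw_le 2)
          _ = rt n ^ 5 := by ring
          _ ≤ rt n ^ 6 := Nat.pow_le_pow_right hr1 (by norm_num)
      · rw [mul_assoc, Nat.mul_div_cancel' (ww_sq_dvd hb0), hub]
  · obtain ⟨n', hn'S, hn'A, hn'⟩ := typeOne hA ha0 haS ha
    have hww := ww_ne_zero a
    have hw_le : ww a ≤ rt n := (le_rt ha0 (ww_sq_dvd ha0)).trans hlt.le
    have hub : u ^ 2 * a = v ^ 2 * n := by rw [ea, en]; ring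
    have hwpos := Nat.pos_of_ne_zero hww
    have hvu2 : v ^ 2 ≤ u ^ 2 := Nat.pow_le_pow_left hvu.le 2
    have hu2 : u ^ 2 ≤ rt n ^ 2 := Nat.pow_le_pow_left hurt 2
    rcases hn' with rfl | rfl
    · refine ⟨_, hn'S, hn'A, ?_, v ^ 2, u ^ 2 * ww a, by positivity, ?_, ?_, ?_⟩
      · exact lt_of_le_of_lt (rt_le_of_dvd ha0 (Nat.div_dvd_of_dvd (ww_dvd ha0))) hlt
      · nlinarith
      · calc u ^ 2 * ww a ≤ rt n ^ 2 * rt n := Nat.mul_le_mul hu2 hw_le
          _ = rt n ^ 3 := by ring
          _ ≤ rt n ^ 6 := Nat.pow_le_pow_right hr1 (by norm_num)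
      · rw [mul_assoc, Nat.mul_div_cancel' (ww_dvd ha0), hub]
    · refine ⟨_, hn'S, hn'A, ?_, v ^ 2, u ^ 2 * ww a ^ 2, by positivity, ?_, ?_, ?_⟩
      · exact lt_of_le_of_lt (rt_le_of_dvd ha0 (Nat.div_dvd_of_dvd (ww_sq_dvd ha0))) hlt
      · have : 1 ≤ ww a ^ 2 := Nat.one_le_pow _ _ hwpos
        nlinarith
      · calc u ^ 2 * ww a ^ 2 ≤ rt n ^ 2 * rt n ^ 2 :=
              Nat.mul_le_mul hu2 (Nat.pow_le_pow_left hw_le 2)
          _ = rt n ^ 4 := by ring
          _ ≤ rt n ^ 6 := Nat.pow_le_pow_right hr1 (by norm_num)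
      · rw [mul_assoc, Nat.mul_div_cancel' (ww_sq_dvd ha0), hub]

/-! ### Counting -/

theorem cnt_mono {A B : Set ℕ} {N : ℕ} (h : ∀ n, 1 ≤ n → n ≤ N → n ∈ A → n ∈ B) :
    cnt A N ≤ cnt B N := by
  classical
  unfold cnt
  apply Finset.card_le_card
  intro n hn
  rw [Finset.mem_filter, Finset.mem_Icc] at hn ⊢
  exact ⟨hn.1, h n hn.1.1 hn.1.2 hn.2⟩

theorem cnt_le (A : Set ℕ) (N : ℕ) : cnt A N ≤ N := by
  classical
  unfold cnt
  calc _ ≤ (Finset.Icc 1 N).card := Finset.card_filter_le _ _
    _ = N := by simp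

theorem cnt_union_le (A B : Set ℕ) (N : ℕ) : cnt (A ∪ B) N ≤ cnt A N + cnt B N := by
  classical
  unfold cnt
  calc _ ≤ ((Finset.Icc 1 N).filter (fun n => n ∈ A) ∪
        (Finset.Icc 1 N).filter (fun n => n ∈ B)).card := by
        apply Finset.card_le_card
        intro n hn
        simp only [Finset.mem_union, Finset.mem_filter, Set.mem_union] at hn ⊢
        tauto
    _ ≤ _ := Finset.card_union_le _ _

theorem cnt_biUnion_le {ι : Type} (s : Finset ι) (F : ι → Set ℕ) (A : Set ℕ) (N : ℕ) (C : ℕ)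
    (hA : ∀ n, 1 ≤ n → n ≤ N → n ∈ A → ∃ i ∈ s, n ∈ F i) (hC : ∀ i ∈ s, cnt (F i) N ≤ C) :
    cnt A N ≤ s.card * C := by
  classical
  unfold cnt at *
  calc _ ≤ (s.biUnion (fun i => (Finset.Icc 1 N).filter (fun n => n ∈ F i))).card := by
        apply Finset.card_le_card
        intro n hn
        rw [Finset.mem_filter, Finset.mem_Icc] at hn
        rw [Finset.mem_biUnion]
        obtain ⟨i, hi, hn'⟩ := hA n hn.1.1 hn.1.2 hn.2
        exact ⟨i, hi, by rw [Finset.mem_filter, Finset.mem_Icc]; exact ⟨hn.1, hn'⟩⟩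
    _ ≤ ∑ i ∈ s, ((Finset.Icc 1 N).filter (fun n => n ∈ F i)).card := Finset.card_biUnion_le
    _ ≤ ∑ _i ∈ s, C := Finset.sum_le_sum hC
    _ = _ := by simp

/-- For `0 < i ≤ j`, the set of `n` with `j n' = i n` for some `n' ∈ Y` has at most as many
elements up to `N` as `Y`. -/
theorem cnt_ratio_le (Y : Set ℕ) (N i j : ℕ) (hi : 0 < i) (hij : i ≤ j) :
    cnt {n | ∃ n' ∈ Y, j * n' = i * n} N ≤ cnt Y N := by
  classical
  unfold cnt
  apply Finset.card_le_card_of_injOn (fun n => i * n / j)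
  · intro n hn
    rw [Finset.mem_coe, Finset.mem_filter, Finset.mem_Icc] at hn ⊢
    obtain ⟨⟨h1, h2⟩, n', hn', h3⟩ := hn
    have hj : 0 < j := by omega
    have e : i * n / j = n' := by rw [← h3]; exact Nat.mul_div_cancel_left _ hj
    simp only
    rw [e]
    refine ⟨⟨?_, ?_⟩, hn'⟩
    · rcases Nat.eq_zero_or_pos n' with h0 | h0
      · subst h0
        have : 0 < i * n := Nat.mul_pos hi h1
        omega
      · exact h0
    · have : j * n' ≤ j * n := by rw [h3]; exact Nat.mul_le_mul_right _ hij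
      exact (Nat.le_of_mul_le_mul_left this hj).trans h2
  · intro n hn m hm h
    rw [Finset.mem_coe, Finset.mem_filter, Finset.mem_Icc] at hn hm
    obtain ⟨⟨h1, h2⟩, n', hn', h3⟩ := hn
    obtain ⟨⟨h1', h2'⟩, m', hm', h3'⟩ := hm
    have hj : 0 < j := by omega
    have e : i * n / j = n' := by rw [← h3]; exact Nat.mul_div_cancel_left _ hj
    have e' : i * m / j = m' := by rw [← h3']; exact Nat.mul_div_cancel_left _ hj
    simp only at h
    rw [e, e'] at h
    rw [h, h3'] at h3
    exact (Nat.eq_of_mul_eq_mul_left hi h3).symm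

/-- Elements outside `A` that are not the largest term of a progression whose other terms are
in `A`. -/
def Uset (A : Set ℕ) : Set ℕ :=
  {n | n ∉ A ∧ ¬ ∃ a ∈ A, ∃ b ∈ A, a < b ∧ b < n ∧ a * n = b ^ 2}

def Dset (A : Set ℕ) (ρ : ℕ) : Set ℕ := {n | n ∈ S ∧ n ∉ A ∧ rt n ≤ ρ}

theorem count_D (ρ : ℕ) : ∃ C : ℕ, ∀ A : Set ℕ, 0 ∉ A → GPFree A → ∀ N,
    cnt (Dset A ρ) N ≤ C * cnt (Uset A) N := by
  induction ρ with
  | zero =>
    refine ⟨0, fun A h0 hA N => ?_⟩
    have : cnt (Dset A 0) N ≤ cnt (∅ : Set ℕ) N := by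
      apply cnt_mono
      intro n _ _ hn
      exact absurd hn.2.2 (by have := rt_pos n; omega)
    simpa [cnt] using this
  | succ ρ ih =>
    obtain ⟨C, hC⟩ := ih
    set K := (ρ + 1) ^ 6 with hK
    refine ⟨1 + (K * K) * C, fun A h0 hA N => ?_⟩
    have h1 : cnt (Dset A (ρ + 1)) N ≤ cnt (Uset A) N +
        cnt {n | n ∈ Dset A (ρ + 1) ∧ n ∉ Uset A} N := by
      refine le_trans ?_ (cnt_union_le _ _ _)
      apply cnt_mono
      intro n _ _ hn
      by_cases hU : n ∈ Uset A
      · exact Or.inl hU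
      · exact Or.inr ⟨hn, hU⟩
    have h2 : cnt {n | n ∈ Dset A (ρ + 1) ∧ n ∉ Uset A} N ≤
        ((Finset.Icc 1 K) ×ˢ (Finset.Icc 1 K)).card * (C * cnt (Uset A) N) := by
      apply cnt_biUnion_le ((Finset.Icc 1 K) ×ˢ (Finset.Icc 1 K))
        (fun ij => if ij.1 ≤ ij.2 then {n | ∃ n' ∈ Dset A ρ, ij.2 * n' = ij.1 * n} else ∅)
      · intro n _ _ hn
        obtain ⟨⟨hnS, hnA, hrt⟩, hU⟩ := hn
        have hbl : ∃ a ∈ A, ∃ b ∈ A, a < b ∧ b < n ∧ a * n = b ^ 2 := by
          by_contra hcon
          exact hU ⟨hnA, hcon⟩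
        obtain ⟨a, ha, b, hb, hab, hbn, heq⟩ := hbl
        obtain ⟨n', hn'S, hn'A, hlt, i, j, hi, hij, hj, hr⟩ := descent h0 hA hnS ha hb hab hbn heq
        have hjK : j ≤ K := hj.trans (Nat.pow_le_pow_left hrt 6)
        refine ⟨(i, j), ?_, ?_⟩
        · rw [Finset.mem_product, Finset.mem_Icc, Finset.mem_Icc]
          simp only
          omega
        · simp only
          rw [if_pos hij]
          exact ⟨n', ⟨hn'S, hn'A, by omega⟩, hr⟩
      · intro ij hij
        rw [Finset.mem_product, Finset.mem_Icc, Finset.mem_Icc] at hij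
        by_cases hle : ij.1 ≤ ij.2
        · rw [if_pos hle]
          exact (cnt_ratio_le _ _ _ _ (by omega) hle).trans (hC A h0 hA N)
        · rw [if_neg hle]
          simp [cnt]
    have h3 : ((Finset.Icc 1 K) ×ˢ (Finset.Icc 1 K)).card = K * K := by
      rw [Finset.card_product]; simp
    rw [h3] at h2
    calc _ ≤ _ := h1
      _ ≤ cnt (Uset A) N + K * K * (C * cnt (Uset A) N) := by omega
      _ = _ := by ring

/-- Elements of `A` outside `S`. -/
theorem count_E (ρ : ℕ) (A : Set ℕ) (hA : GPFree A) (N : ℕ) :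
    cnt {n | n ∈ A ∧ n ∉ S ∧ rt n ≤ ρ} N ≤ 2 * ρ * cnt (Dset A ρ) N := by
  have h : cnt {n | n ∈ A ∧ n ∉ S ∧ rt n ≤ ρ} N ≤
      ((Finset.Icc 1 ρ) ×ˢ (Finset.Icc 1 2)).card * cnt (Dset A ρ) N := by
    apply cnt_biUnion_le ((Finset.Icc 1 ρ) ×ˢ (Finset.Icc 1 2))
      (fun we => {n | ∃ n' ∈ Dset A ρ, we.1 ^ we.2 * n' = 1 * n})
    · intro n hn1 _ hn
      obtain ⟨hnA, hnS, hrt⟩ := hn
      have hn0 : n ≠ 0 := by omega
      have hw : ww n ≤ ρ := (le_rt hn0 (ww_sq_dvd hn0)).trans hrt
      have hwpos := Nat.pos_of_ne_zero (ww_ne_zero n)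
      obtain ⟨n', hn'S, hn'A, hn'⟩ := typeOne hA hn0 hnS hnA
      rcases hn' with rfl | rfl
      · refine ⟨(ww n, 1), ?_, ?_⟩
        · rw [Finset.mem_product, Finset.mem_Icc, Finset.mem_Icc]
          simp only
          omega
        · refine ⟨n / ww n, ⟨hn'S, hn'A, ?_⟩, ?_⟩
          · exact (rt_le_of_dvd hn0 (Nat.div_dvd_of_dvd (ww_dvd hn0))).trans hrt
          · simp only [pow_one, one_mul]
            exact Nat.mul_div_cancel' (ww_dvd hn0)
      · refine ⟨(ww n, 2), ?_, ?_⟩
        · rw [Finset.mem_product, Finset.mem_Icc, Finset.mem_Icc]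
          simp only
          omega
        · refine ⟨n / ww n ^ 2, ⟨hn'S, hn'A, ?_⟩, ?_⟩
          · exact (rt_le_of_dvd hn0 (Nat.div_dvd_of_dvd (ww_sq_dvd hn0))).trans hrt
          · simp only [one_mul]
            exact Nat.mul_div_cancel' (ww_sq_dvd hn0)
    · intro we hwe
      rw [Finset.mem_product, Finset.mem_Icc, Finset.mem_Icc] at hwe
      have : 1 ≤ we.1 ^ we.2 := Nat.one_le_pow _ _ (by omega)
      exact cnt_ratio_le _ _ _ _ one_pos this
  have h3 : ((Finset.Icc 1 ρ) ×ˢ (Finset.Icc 1 2)).card = 2 * ρ := by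
    rw [Finset.card_product]; simp [mul_comm]
  rwa [h3] at h

/-- A finite set of naturals in `(a, b]` with all elements congruent mod `q` has at most
`(b - a) / q + 1` elements. -/
theorem card_congr_le (s : Finset ℕ) (a b q : ℕ)
    (hs : ∀ x ∈ s, a < x ∧ x ≤ b) (hc : ∀ x ∈ s, ∀ y ∈ s, x ≡ y [MOD q]) :
    s.card ≤ (b - a) / q + 1 := by
  have : s.card ≤ (Finset.range ((b - a) / q + 1)).card := by
    apply Finset.card_le_card_of_injOn (fun x => (x - a) / q)
    · intro x hx
      rw [Finset.mem_coe, Finset.mem_range]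
      have := hs x hx
      exact Nat.lt_succ_of_le (Nat.div_le_div_right (by omega))
    · intro x hx y hy hxy
      simp only at hxy
      have h1 := hs x hx
      have h2 := hs y hy
      have h3 : (x - a) ≡ (y - a) [MOD q] := by
        have h4 := hc x hx y hy
        have hx' : x = (x - a) + a := by omega
        have hy' : y = (y - a) + a := by omega
        rw [hx', hy'] at h4
        exact Nat.ModEq.add_right_cancel' a h4
      have h5 : x - a = y - a := by
        rw [← Nat.div_add_mod (x - a) q, ← Nat.div_add_mod (y - a) q, hxy, h3]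
      omega
  simpa using this

theorem tail_bound (ρ N : ℕ) (hρ : 0 < ρ) :
    (cnt {n | ρ < rt n} N : ℝ) ≤ N / ρ := by
  classical
  generalize hT : {n | ρ < rt n} = T
  have hTm : ∀ n ∈ T, ρ < rt n := by
    intro n hn
    rw [← hT] at hn
    exact hn
  have h1 : cnt T N ≤ ∑ r ∈ Finset.Ioc ρ N, N / r ^ 2 := by
    unfold cnt
    calc _ ≤ ((Finset.Ioc ρ N).biUnion
          (fun r => (Finset.Ioc 0 N).filter (fun n => r ^ 2 ∣ n))).card := by
          apply Finset.card_le_card
          intro n hn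
          have hn := Finset.mem_filter.mp hn
          rw [Finset.mem_Icc] at hn
          rw [Finset.mem_biUnion]
          have hn0 : n ≠ 0 := by omega
          refine ⟨rt n, ?_, ?_⟩
          · rw [Finset.mem_Ioc]
            refine ⟨hTm n hn.2, ?_⟩
            have h := Nat.le_of_dvd (by omega) (rt_sq_dvd hn0)
            nlinarith [rt_pos n]
          · rw [Finset.mem_filter, Finset.mem_Ioc]
            exact ⟨⟨by omega, hn.1.2⟩, rt_sq_dvd hn0⟩
      _ ≤ ∑ r ∈ Finset.Ioc ρ N, ((Finset.Ioc 0 N).filter (fun n => r ^ 2 ∣ n)).card :=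
          Finset.card_biUnion_le
      _ = _ := by
          apply Finset.sum_congr rfl
          intro r _
          exact Nat.Ioc_filter_dvd_card_eq_div N (r ^ 2)
  rcases Nat.lt_or_ge N ρ with hN | hN
  · have : Finset.Ioc ρ N = ∅ := Finset.Ioc_eq_empty (by omega)
    rw [this] at h1
    have h1' : cnt T N = 0 := by simpa using h1
    rw [h1', Nat.cast_zero]
    positivity
  · have h2 : ((∑ r ∈ Finset.Ioc ρ N, N / r ^ 2 : ℕ) : ℝ) ≤
        N * ∑ r ∈ Finset.Ioc ρ N, ((r : ℝ) ^ 2)⁻¹ := by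
      push_cast
      rw [Finset.mul_sum]
      apply Finset.sum_le_sum
      intro r _
      calc ((N / r ^ 2 : ℕ) : ℝ) ≤ (N : ℝ) / ((r ^ 2 : ℕ) : ℝ) := Nat.cast_div_le
        _ = _ := by push_cast; rw [div_eq_mul_inv]
    have h3 := sum_Ioc_inv_sq_le_sub (α := ℝ) hρ.ne' hN
    calc (cnt T N : ℝ) ≤ ((∑ r ∈ Finset.Ioc ρ N, N / r ^ 2 : ℕ) : ℝ) := by
          exact_mod_cast h1
      _ ≤ _ := h2
      _ ≤ N * ((ρ : ℝ)⁻¹ - (N : ℝ)⁻¹) := by gcongr
      _ ≤ N * (ρ : ℝ)⁻¹ := by
          gcongr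
          have : (0 : ℝ) ≤ (N : ℝ)⁻¹ := by positivity
          linarith
      _ = N / ρ := by rw [div_eq_mul_inv]

/-- Comparison of a progression-free set with the Rankin set. -/
theorem compare (ρ : ℕ) (hρ : 0 < ρ) : ∃ C : ℕ, ∀ A : Set ℕ, 0 ∉ A → GPFree A → ∀ N,
    (cnt A N : ℝ) ≤ cnt S N + C * cnt (Uset A) N + N / ρ := by
  obtain ⟨C, hC⟩ := count_D ρ
  refine ⟨2 * ρ * C, fun A h0 hA N => ?_⟩
  have h1 : cnt A N ≤ cnt S N + cnt {n | n ∈ A ∧ n ∉ S ∧ rt n ≤ ρ} N + cnt {n | ρ < rt n} N := by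
    have : cnt A N ≤ cnt ((S ∪ {n | n ∈ A ∧ n ∉ S ∧ rt n ≤ ρ}) ∪ {n | ρ < rt n}) N := by
      apply cnt_mono
      intro n _ _ hn
      by_cases h1 : n ∈ S
      · exact Or.inl (Or.inl h1)
      · by_cases h2 : rt n ≤ ρ
        · exact Or.inl (Or.inr ⟨hn, h1, h2⟩)
        · exact Or.inr (by simpa using h2)
    have h2 := cnt_union_le (S ∪ {n | n ∈ A ∧ n ∉ S ∧ rt n ≤ ρ}) {n | ρ < rt n} N
    have h3 := cnt_union_le S {n | n ∈ A ∧ n ∉ S ∧ rt n ≤ ρ} N
    omega
  have h2 := count_E ρ A hA N
  have h3 := hC A h0 hA N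
  have h4 := tail_bound ρ N hρ
  have h5 : cnt {n | n ∈ A ∧ n ∉ S ∧ rt n ≤ ρ} N ≤ 2 * ρ * C * cnt (Uset A) N := by
    calc _ ≤ _ := h2
      _ ≤ 2 * ρ * (C * cnt (Uset A) N) := Nat.mul_le_mul_left _ h3
      _ = _ := by ring
  have h6 : (cnt A N : ℝ) ≤ cnt S N + (2 * ρ * C * cnt (Uset A) N : ℕ) +
      cnt {n | ρ < rt n} N := by exact_mod_cast h1.trans (by omega)
  push_cast at h6 ⊢
  linarith

/-! ### Densities -/

theorem ratio_le_one (A : Set ℕ) (N : ℕ) : (cnt A N : ℝ) / N ≤ 1 := by
  rcases Nat.eq_zero_or_pos N with h | h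
  · subst h; simp
  · rw [div_le_one (by exact_mod_cast h)]
    exact_mod_cast cnt_le A N

theorem bdd_alpha : BddAbove {d : ℝ | ∃ A : Set ℕ, 0 ∉ A ∧ GPFree A ∧ HasDensity A d} := by
  refine ⟨1, ?_⟩
  rintro d ⟨A, _, _, hd⟩
  exact le_of_tendsto hd (Filter.Eventually.of_forall (fun N => ratio_le_one A N))

theorem ratio_nonneg (A : Set ℕ) (N : ℕ) : 0 ≤ (cnt A N : ℝ) / N := by positivity

theorem upperDensity_le_one (A : Set ℕ) : upperDensity A ≤ 1 := by
  unfold upperDensity
  apply Filter.limsup_le_of_le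
  · exact Filter.isCoboundedUnder_le_of_le Filter.atTop (x := 0) (fun N => ratio_nonneg A N)
  · exact Filter.Eventually.of_forall (fun N => ratio_le_one A N)

theorem bdd_alphaBar :
    BddAbove {d : ℝ | ∃ A : Set ℕ, 0 ∉ A ∧ GPFree A ∧ d = upperDensity A} := by
  refine ⟨1, ?_⟩
  rintro d ⟨A, _, _, rfl⟩
  exact upperDensity_le_one A

theorem le_alphaBar {A : Set ℕ} (h0 : 0 ∉ A) (hA : GPFree A) : upperDensity A ≤ alphaBar :=
  le_csSup bdd_alphaBar ⟨A, h0, hA, rfl⟩

theorem le_upperDensity {A : Set ℕ} {b : ℝ}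
    (h : ∃ᶠ N : ℕ in Filter.atTop, b ≤ (cnt A N : ℝ) / N) : b ≤ upperDensity A := by
  unfold upperDensity
  exact Filter.le_limsup_of_frequently_le h
    (Filter.isBoundedUnder_of ⟨1, fun N => ratio_le_one A N⟩)

/-- Gluing: progression-free subsets of `{1, ..., N}` have at most `(alphaBar + ε) N` elements for
all large `N`. -/
theorem finite_bound {ε : ℝ} (hε : 0 < ε) : ∃ N0 : ℕ, ∀ N ≥ N0, ∀ B : Set ℕ, GPFree B →
    (cnt B N : ℝ) ≤ (alphaBar + ε) * N := by
  by_contra hcon
  push Not at hcon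
  choose f hf B hB hcnt using hcon
  obtain ⟨K, hK⟩ := exists_nat_gt (2 / ε)
  have hKpos : 0 < K := by
    have : (0 : ℝ) < K := lt_trans (by positivity) hK
    exact_mod_cast this
  have hKε : 1 / (K : ℝ) ≤ ε / 2 := by
    rw [div_le_div_iff₀ (by exact_mod_cast hKpos) (by norm_num)]
    rw [div_lt_iff₀ hε] at hK
    linarith
  -- the sequence of scales
  let seq : ℕ → ℕ := fun j => Nat.rec 1 (fun _ m => K ^ 2 * (f m) ^ 2 + 1) j
  have seq_succ : ∀ j, seq (j + 1) = K ^ 2 * (f (seq j)) ^ 2 + 1 := fun j => rfl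
  let NN : ℕ → ℕ := fun j => f (seq j)
  have hNN1 : ∀ j, 1 ≤ seq j := by
    intro j
    cases j with
    | zero => exact le_refl 1
    | succ j => rw [seq_succ]; omega
  have hNpos : ∀ j, 1 ≤ NN j := fun j => (hNN1 j).trans (hf _)
  have hstep : ∀ j, K ^ 2 * NN j ^ 2 < NN (j + 1) := by
    intro j
    have := hf (seq (j + 1))
    rw [seq_succ] at this
    exact lt_of_lt_of_le (Nat.lt_succ_self _) this
  have hmono : StrictMono NN := by
    apply strictMono_nat_of_lt_succ
    intro j
    have h1 := hstep j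
    have h2 : NN j ≤ K ^ 2 * NN j ^ 2 := by
      have : 1 ≤ K ^ 2 := Nat.one_le_pow _ _ hKpos
      nlinarith [hNpos j]
    omega
  have hgap : ∀ i j, i < j → K ^ 2 * NN i ^ 2 < NN j := by
    intro i j hij
    exact lt_of_lt_of_le (hstep i) (hmono.monotone hij)
  let C : Set ℕ := {n | ∃ j, n ∈ B (seq j) ∧ NN j < K * n ∧ n ≤ NN j}
  have hC0 : 0 ∉ C := by
    rintro ⟨j, _, h, _⟩
    omega
  have hK2 : K ≤ K ^ 2 := by nlinarith
  have hC : GPFree C := by
    rintro a ⟨i, hai, ha1, ha2⟩ b ⟨j, hbj, hb1, hb2⟩ c ⟨k, hck, hc1, hc2⟩ hab hbc heq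
    have hapos : 0 < a := by
      rcases Nat.eq_zero_or_pos a with h | h
      · subst h; omega
      · exact h
    have hjk : j = k := by
      rcases lt_trichotomy j k with h | h | h
      · exfalso
        have h1 := hgap j k h
        have h2 : c ≤ b ^ 2 := by rw [← heq]; exact Nat.le_mul_of_pos_left _ hapos
        have h3 : b ^ 2 ≤ NN j ^ 2 := Nat.pow_le_pow_left hb2 2
        have h4 : K * c ≤ K ^ 2 * NN j ^ 2 := Nat.mul_le_mul hK2 (h2.trans h3)
        omega
      · exact h
      · exfalso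
        have h1 := hgap k j h
        have h2 : b ≤ NN k := by omega
        have h3 : K * b ≤ K ^ 2 * NN k ^ 2 := by
          apply Nat.mul_le_mul hK2
          nlinarith [hNpos k]
        omega
    subst hjk
    have hij : i = j := by
      rcases lt_trichotomy i j with h | h | h
      · exfalso
        have h1 := hgap i j h
        have h2 : K ^ 2 * (a * c) ≤ K ^ 2 * (NN i * NN j) :=
          Nat.mul_le_mul_left _ (Nat.mul_le_mul ha2 hc2)
        have h3 : NN j ^ 2 < K ^ 2 * (a * c) := by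
          rw [heq]
          have : NN j ^ 2 < (K * b) ^ 2 := Nat.pow_lt_pow_left hb1 (by norm_num)
          calc _ < _ := this
            _ = _ := by ring
        have h4 : NN j * NN j < (K ^ 2 * NN i) * NN j := by
          calc NN j * NN j = NN j ^ 2 := by ring
            _ < K ^ 2 * (a * c) := h3
            _ ≤ K ^ 2 * (NN i * NN j) := h2
            _ = _ := by ring
        have h5 : NN j < K ^ 2 * NN i := Nat.lt_of_mul_lt_mul_right h4
        have h6 : K ^ 2 * NN i ≤ K ^ 2 * NN i ^ 2 := by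
          apply Nat.mul_le_mul_left
          nlinarith [hNpos i]
        omega
      · exact h
      · exfalso
        have h1 := hgap j i h
        have h2 : K * a ≤ K ^ 2 * NN j ^ 2 := by
          apply Nat.mul_le_mul hK2
          have := hNpos j
          nlinarith
        omega
    subst hij
    exact hB _ a hai b hbj c hck hab hbc heq
  -- counting at the scales
  have hcount : ∀ j, alphaBar + ε / 2 ≤ (cnt C (NN j) : ℝ) / (NN j) := by
    intro j
    have hpos : (0 : ℝ) < NN j := by exact_mod_cast hNpos j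
    rw [le_div_iff₀ hpos]
    have h1 : cnt (B (seq j)) (NN j) ≤ cnt C (NN j) + NN j / K := by
      have h2 : cnt (B (seq j)) (NN j) ≤ cnt (C ∪ {n | n ≤ NN j / K}) (NN j) := by
        apply cnt_mono
        intro n _ hn2 hn
        by_cases h : NN j < K * n
        · exact Or.inl ⟨j, hn, h, hn2⟩
        · refine Or.inr ?_
          have h' : K * n ≤ NN j := by omega
          show n ≤ NN j / K
          rw [Nat.le_div_iff_mul_le hKpos, mul_comm]
          exact h'
      have h3 := cnt_union_le C {n | n ≤ NN j / K} (NN j)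
      have h4 : cnt {n | n ≤ NN j / K} (NN j) ≤ NN j / K := by
        classical
        generalize hT : {n | n ≤ NN j / K} = T
        have hTm : ∀ n ∈ T, n ≤ NN j / K := by
          intro n hn
          rw [← hT] at hn
          exact hn
        unfold cnt
        calc _ ≤ (Finset.Icc 1 (NN j / K)).card := by
              apply Finset.card_le_card
              intro n hn
              have hn := Finset.mem_filter.mp hn
              rw [Finset.mem_Icc] at hn ⊢
              exact ⟨hn.1.1, hTm n hn.2⟩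
          _ = _ := by simp
      omega
    have h5 := (hcnt (seq j)).le
    have h6 : ((NN j / K : ℕ) : ℝ) ≤ (NN j : ℝ) / K := Nat.cast_div_le
    have h7 : (cnt (B (seq j)) (NN j) : ℝ) ≤ cnt C (NN j) + (NN j / K : ℕ) := by
      exact_mod_cast h1
    have h8 : (NN j : ℝ) / K = (1 / K) * NN j := by ring
    have h9 : (1 / (K : ℝ)) * NN j ≤ (ε / 2) * NN j := by gcongr
    have h10 : (alphaBar + ε) * (NN j : ℝ) ≤ cnt (B (seq j)) (NN j) := h5
    nlinarith
  have hfreq : ∃ᶠ N : ℕ in Filter.atTop, alphaBar + ε / 2 ≤ (cnt C N : ℝ) / N := by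
    rw [Filter.frequently_atTop]
    intro a
    exact ⟨NN a, hmono.id_le a, hcount a⟩
  have := le_upperDensity hfreq
  have h2 := le_alphaBar hC0 hC
  linarith

/-- Membership in the top window `((1 - 1/M) N, N]`. -/
def Wset (M N : ℕ) : Set ℕ := {n | (M - 1) * N < M * n ∧ n ≤ N}

/-- The exchange argument. -/
theorem window {A : Set ℕ} (hA : GPFree A) (M N : ℕ) (hM : 1 ≤ M) :
    ∃ B : Set ℕ, GPFree B ∧ cnt A N + cnt (Uset A ∩ Wset M N) N ≤
      cnt B N + cnt {n | n ∈ Wset M N ∧ ∃ u, M < u ∧ u ^ 2 ∣ n} N := by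
  refine ⟨{n | n ≠ 0 ∧ n ≤ N ∧ (n ∈ A ∨ (n ∈ Uset A ∧ n ∈ Wset M N)) ∧
    ¬ (n ∈ Wset M N ∧ ∃ u, M < u ∧ u ^ 2 ∣ n)}, ?_, ?_⟩
  · rintro a ⟨ha0, haN, ha, haH⟩ b ⟨hb0, hbN, hb, hbH⟩ c ⟨hc0, hcN, hc, hcH⟩ hab hbc heq
    by_cases hbW : b ∈ Wset M N
    · -- both b and c are in the window
      have hcW : c ∈ Wset M N := by
        refine ⟨lt_of_lt_of_le hbW.1 (Nat.mul_le_mul_left _ hbc.le), hcN⟩
      apply hcH
      refine ⟨hcW, ?_⟩
      obtain ⟨m, u, v, hm, hv, hvu, ea, eb, ec⟩ :=
        gp_param (Nat.pos_of_ne_zero ha0) hab hbc heq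
      refine ⟨u, ?_, ⟨m, by rw [ec]; ring⟩⟩
      have h1 : (M - 1) * c < M * b := lt_of_le_of_lt (Nat.mul_le_mul_left _ hcN) hbW.1
      rw [eb, ec] at h1
      have h2 : (M - 1) * u < M * v := by
        have h3 : (m * u) * ((M - 1) * u) < (m * u) * (M * v) := by
          calc _ = (M - 1) * (m * u ^ 2) := by ring
            _ < M * (m * u * v) := h1
            _ = _ := by ring
        exact Nat.lt_of_mul_lt_mul_left h3
      obtain ⟨M', rfl⟩ : ∃ M', M = M' + 1 := ⟨M - 1, by omega⟩
      simp only [Nat.add_sub_cancel] at h2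
      nlinarith
    · have haW : a ∉ Wset M N := by
        intro haW
        exact hbW ⟨lt_of_lt_of_le haW.1 (Nat.mul_le_mul_left _ hab.le), hbN⟩
      have haA : a ∈ A := by
        rcases ha with h | h
        · exact h
        · exact absurd h.2 haW
      have hbA : b ∈ A := by
        rcases hb with h | h
        · exact h
        · exact absurd h.2 hbW
      rcases hc with h | h
      · exact hA a haA b hbA c h hab hbc heq
      · exact h.1.2 ⟨a, haA, b, hbA, hab, hbc, heq⟩
  · classical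
    generalize hH : {n | n ∈ Wset M N ∧ ∃ u, M < u ∧ u ^ 2 ∣ n} = H
    have hHm : ∀ n, (n ∈ Wset M N ∧ ∃ u, M < u ∧ u ^ 2 ∣ n) → n ∈ H := by
      intro n hn
      rw [← hH]
      exact hn
    generalize hB : {n | n ≠ 0 ∧ n ≤ N ∧ (n ∈ A ∨ (n ∈ Uset A ∧ n ∈ Wset M N)) ∧
      ¬ (n ∈ Wset M N ∧ ∃ u, M < u ∧ u ^ 2 ∣ n)} = B
    have hBm : ∀ n, (n ≠ 0 ∧ n ≤ N ∧ (n ∈ A ∨ (n ∈ Uset A ∧ n ∈ Wset M N)) ∧
      ¬ (n ∈ Wset M N ∧ ∃ u, M < u ∧ u ^ 2 ∣ n)) → n ∈ B := by
      intro n hn
      rw [← hB]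
      exact hn
    generalize hV : Uset A ∩ Wset M N = V
    have hVm : ∀ n ∈ V, n ∈ Uset A ∧ n ∈ Wset M N := by
      intro n hn
      rw [← hV] at hn
      exact hn
    unfold cnt
    rw [← Finset.card_union_of_disjoint]
    · refine le_trans (Finset.card_le_card ?_) (Finset.card_union_le _ _)
      intro n hn
      rw [Finset.mem_union, Finset.mem_filter, Finset.mem_filter, Finset.mem_Icc] at hn
      rw [Finset.mem_union, Finset.mem_filter, Finset.mem_filter, Finset.mem_Icc]
      by_cases hnH : n ∈ Wset M N ∧ ∃ u, M < u ∧ u ^ 2 ∣ n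
      · right
        rcases hn with h | h
        · exact ⟨h.1, hHm n hnH⟩
        · exact ⟨h.1, hHm n hnH⟩
      · left
        rcases hn with h | h
        · exact ⟨h.1, hBm n ⟨by omega, h.1.2, Or.inl h.2, hnH⟩⟩
        · exact ⟨h.1, hBm n ⟨by omega, h.1.2, Or.inr (hVm n h.2), hnH⟩⟩
    · rw [Finset.disjoint_left]
      intro n hn hn'
      rw [Finset.mem_filter] at hn hn'
      exact (hVm n hn'.2).1.1 hn.2

theorem count_H (M N : ℕ) (hM : 1 ≤ M) :
    (cnt {n | n ∈ Wset M N ∧ ∃ u, M < u ∧ u ^ 2 ∣ n} N : ℝ) ≤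
      N / (M : ℝ) ^ 2 + 1 + Nat.sqrt N := by
  classical
  generalize hT : {n | n ∈ Wset M N ∧ ∃ u, M < u ∧ u ^ 2 ∣ n} = T
  have hTm : ∀ n ∈ T, n ∈ Wset M N ∧ ∃ u, M < u ∧ u ^ 2 ∣ n := by
    intro n hn
    rw [← hT] at hn
    exact hn
  set N' := ((M - 1) * N) / M with hN'
  have hMpos : 0 < M := hM
  have hN'le : N' ≤ N := by
    rw [hN']
    apply Nat.div_le_of_le_mul
    exact Nat.mul_le_mul_right _ (by omega)
  have h1 : cnt T N ≤ ∑ u ∈ Finset.Ioc M (Nat.sqrt N), ((N - N') / u ^ 2 + 1) := by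
    unfold cnt
    calc _ ≤ ((Finset.Ioc M (Nat.sqrt N)).biUnion
          (fun u => (Finset.Ioc N' N).filter (fun n => u ^ 2 ∣ n))).card := by
          apply Finset.card_le_card
          intro n hn
          have hn := Finset.mem_filter.mp hn
          rw [Finset.mem_Icc] at hn
          obtain ⟨⟨hn1, hn2⟩, hnT⟩ := hn
          obtain ⟨hW, u, hu, hd⟩ := hTm n hnT
          rw [Finset.mem_biUnion]
          refine ⟨u, ?_, ?_⟩
          · rw [Finset.mem_Ioc]
            refine ⟨hu, ?_⟩
            rw [Nat.le_sqrt']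
            exact (Nat.le_of_dvd (by omega) hd).trans hn2
          · rw [Finset.mem_filter, Finset.mem_Ioc]
            refine ⟨⟨?_, hn2⟩, hd⟩
            rw [hN', Nat.div_lt_iff_lt_mul hMpos, mul_comm n M]
            exact hW.1
      _ ≤ ∑ u ∈ Finset.Ioc M (Nat.sqrt N),
            ((Finset.Ioc N' N).filter (fun n => u ^ 2 ∣ n)).card := Finset.card_biUnion_le
      _ ≤ _ := by
          apply Finset.sum_le_sum
          intro u _
          apply card_congr_le
          · intro x hx
            rw [Finset.mem_filter, Finset.mem_Ioc] at hx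
            exact hx.1
          · intro x hx y hy
            rw [Finset.mem_filter] at hx hy
            rw [Nat.ModEq, Nat.mod_eq_zero_of_dvd hx.2, Nat.mod_eq_zero_of_dvd hy.2]
  have hdiff : ((N - N' : ℕ) : ℝ) ≤ N / M + 1 := by
    have h2 : (M - 1) * N < M * (N' + 1) := by
      have := Nat.lt_div_mul_add (a := (M - 1) * N) hMpos
      rw [← hN'] at this
      nlinarith
    have h3 : (((M - 1 : ℕ) : ℝ)) = (M : ℝ) - 1 := by
      rw [Nat.cast_sub hM]; simp
    have h4 : ((M : ℝ) - 1) * N < M * (N' + 1) := by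
      rw [← h3]; exact_mod_cast h2
    rw [Nat.cast_sub hN'le]
    have hMr : (0 : ℝ) < M := by exact_mod_cast hMpos
    have : (N : ℝ) - N' = (N / M + 1) + (((M : ℝ) - 1) * N - M * (N' + 1)) / M := by
      field_simp
      ring
    rw [this]
    have : (((M : ℝ) - 1) * N - M * (N' + 1)) / M ≤ 0 :=
      div_nonpos_of_nonpos_of_nonneg (by linarith) hMr.le
    linarith
  rcases Nat.lt_or_ge (Nat.sqrt N) M with hs | hs
  · have : Finset.Ioc M (Nat.sqrt N) = ∅ := Finset.Ioc_eq_empty (by omega)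
    rw [this] at h1
    have h1' : cnt T N = 0 := by simpa using h1
    rw [h1', Nat.cast_zero]
    positivity
  · have h2 : ((∑ u ∈ Finset.Ioc M (Nat.sqrt N), ((N - N') / u ^ 2 + 1) : ℕ) : ℝ) ≤
        ((N : ℝ) / M + 1) * ∑ u ∈ Finset.Ioc M (Nat.sqrt N), ((u : ℝ) ^ 2)⁻¹ + Nat.sqrt N := by
      rw [Finset.sum_add_distrib]
      push_cast
      apply add_le_add
      · rw [Finset.mul_sum]
        apply Finset.sum_le_sum
        intro u _
        calc (((N - N') / u ^ 2 : ℕ) : ℝ) ≤ ((N - N' : ℕ) : ℝ) / ((u ^ 2 : ℕ) : ℝ) :=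
              Nat.cast_div_le
          _ = ((N - N' : ℕ) : ℝ) * ((u : ℝ) ^ 2)⁻¹ := by push_cast; rw [div_eq_mul_inv]
          _ ≤ _ := by gcongr
      · simp
    have h3 := sum_Ioc_inv_sq_le_sub (α := ℝ) (k := M) (by omega) hs
    have h4 : (0 : ℝ) ≤ ((Nat.sqrt N : ℕ) : ℝ)⁻¹ := by positivity
    have hMr : (1 : ℝ) ≤ M := by exact_mod_cast hM
    have h5 : (N : ℝ) / M * (M : ℝ)⁻¹ = N / (M : ℝ) ^ 2 := by
      field_simp
    have h6 : (M : ℝ)⁻¹ ≤ 1 := inv_le_one_of_one_le₀ hMr
    calc (cnt T N : ℝ) ≤ ((∑ u ∈ Finset.Ioc M (Nat.sqrt N), ((N - N') / u ^ 2 + 1) : ℕ) : ℝ) := by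
          exact_mod_cast h1
      _ ≤ _ := h2
      _ ≤ ((N : ℝ) / M + 1) * (M : ℝ)⁻¹ + Nat.sqrt N := by
          gcongr
          linarith
      _ ≤ N / (M : ℝ) ^ 2 + 1 + Nat.sqrt N := by
          rw [add_mul, h5, one_mul]
          linarith

theorem U_bound {A : Set ℕ} (hA : GPFree A) (M : ℕ) (hM : 1 ≤ M)
    (hnear : ∃ N1 : ℕ, ∀ N ≥ N1, (alphaBar - 1 / (M : ℝ) ^ 2) * N ≤ cnt A N) :
    ∃ K : ℕ, ∀ N : ℕ, (cnt (Uset A) N : ℝ) ≤ 4 / M * N + K := by
  obtain ⟨N1, hN1⟩ := hnear
  have hMr : (0 : ℝ) < M := by exact_mod_cast hM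
  obtain ⟨N0, hN0⟩ := finite_bound (ε := 1 / (M : ℝ) ^ 2) (by positivity)
  set K := max (max N0 N1) (4 * M ^ 4) with hK
  refine ⟨K, fun N => ?_⟩
  induction N using Nat.strong_induction_on with
  | _ N ih =>
    rcases Nat.lt_or_ge N K with hlt | hge
    · have h1 : (cnt (Uset A) N : ℝ) ≤ N := by exact_mod_cast cnt_le _ _
      have h2 : (N : ℝ) ≤ K := by exact_mod_cast hlt.le
      have h3 : (0 : ℝ) ≤ 4 / M * N := by positivity
      linarith
    · have hNN0 : N0 ≤ N := le_trans (le_trans (le_max_left _ _) (le_max_left _ _)) hge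
      have hNN1 : N1 ≤ N := le_trans (le_trans (le_max_right _ _) (le_max_left _ _)) hge
      have hNM : 4 * M ^ 4 ≤ N := le_trans (le_max_right _ _) hge
      have hM4 : 1 ≤ M ^ 4 := Nat.one_le_pow _ _ hM
      have hNpos : 1 ≤ N := by omega
      set N' := ((M - 1) * N) / M with hN'
      have hlt : N' < N := by
        rw [hN', Nat.div_lt_iff_lt_mul (by omega), mul_comm N M]
        exact Nat.mul_lt_mul_of_pos_right (by omega) hNpos
      obtain ⟨B, hB, hcB⟩ := window hA M N hM
      have hBb := hN0 N hNN0 B hB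
      have hAb := hN1 N hNN1
      have hHb := count_H M N hM
      have hsplit : cnt (Uset A) N ≤ cnt (Uset A) N' + cnt (Uset A ∩ Wset M N) N := by
        classical
        generalize hV : Uset A ∩ Wset M N = V
        have hVm : ∀ n, n ∈ Uset A → n ∈ Wset M N → n ∈ V := by
          intro n hn hn'
          rw [← hV]
          exact ⟨hn, hn'⟩
        unfold cnt
        refine le_trans (Finset.card_le_card ?_) (Finset.card_union_le _ _)
        intro n hn
        rw [Finset.mem_filter, Finset.mem_Icc] at hn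
        rw [Finset.mem_union, Finset.mem_filter, Finset.mem_filter, Finset.mem_Icc,
          Finset.mem_Icc]
        rcases Nat.lt_or_ge N' n with h | h
        · right
          refine ⟨hn.1, hVm n hn.2 ⟨?_, hn.1.2⟩⟩
          rw [hN', Nat.div_lt_iff_lt_mul (by omega), mul_comm n M] at h
          exact h
        · left
          exact ⟨⟨hn.1.1, h⟩, hn.2⟩
      have ih' := ih N' hlt
      have hN'r : (N' : ℝ) ≤ ((M : ℝ) - 1) * N / M := by
        have h3 : (((M - 1 : ℕ) : ℝ)) = (M : ℝ) - 1 := by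
          rw [Nat.cast_sub hM]; simp
        rw [← h3, hN']
        calc (((M - 1) * N / M : ℕ) : ℝ) ≤ (((M - 1) * N : ℕ) : ℝ) / (M : ℝ) := Nat.cast_div_le
          _ = _ := by push_cast; ring
      have hsq : (Nat.sqrt N : ℝ) + 1 ≤ N / (M : ℝ) ^ 2 := by
        have h1 : Nat.sqrt N * Nat.sqrt N ≤ N := Nat.sqrt_le N
        have h2 : 2 * M ^ 2 ≤ Nat.sqrt N := by
          rw [Nat.le_sqrt]
          calc 2 * M ^ 2 * (2 * M ^ 2) = 4 * M ^ 4 := by ring
            _ ≤ N := hNM
        have h3 : 1 ≤ M ^ 2 := Nat.one_le_pow _ _ hM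
        have h4 : (Nat.sqrt N + 1) * M ^ 2 ≤ N := by nlinarith
        rw [le_div_iff₀ (by positivity)]
        exact_mod_cast h4
      have hcB' : (cnt A N : ℝ) + cnt (Uset A ∩ Wset M N) N ≤
          cnt B N + cnt {n | n ∈ Wset M N ∧ ∃ u, M < u ∧ u ^ 2 ∣ n} N := by exact_mod_cast hcB
      have hsplit' : (cnt (Uset A) N : ℝ) ≤ cnt (Uset A) N' + cnt (Uset A ∩ Wset M N) N := by
        exact_mod_cast hsplit
      have e1 : (1 / (M : ℝ) ^ 2) * N = N / (M : ℝ) ^ 2 := by ring
      have h5 : (cnt (Uset A ∩ Wset M N) N : ℝ) ≤ 4 * (N / (M : ℝ) ^ 2) := by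
        nlinarith
      have h6 : 4 / (M : ℝ) * N' ≤ 4 / M * (((M : ℝ) - 1) * N / M) := by gcongr
      have h7 : 4 / (M : ℝ) * (((M : ℝ) - 1) * N / M) + 4 * (N / (M : ℝ) ^ 2) = 4 / M * N := by
        field_simp
        ring
      linarith

/-! ### The Rankin set is not optimal for upper density -/

def Rset (N : ℕ) : Set ℕ := {r | r % 2 = 1 ∧ r ∈ S ∧ 256 * r ≤ N ∧ N < 512 * r}

theorem fact_two_pow_mul {k r : ℕ} (hr : r % 2 = 1) (p : ℕ) :
    (2 ^ k * r).factorization p = (if p = 2 then k else r.factorization p) := by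
  have hr0 : r ≠ 0 := by rintro rfl; omega
  rw [Nat.factorization_mul (by positivity) hr0, Finsupp.add_apply,
    Nat.Prime.factorization_pow Nat.prime_two, Finsupp.single_apply]
  by_cases h : p = 2
  · subst h
    have : r.factorization 2 = 0 := Nat.factorization_eq_zero_of_not_dvd (by omega)
    simp [this]
  · rw [if_neg h, if_neg (Ne.symm h), zero_add]

/-- the odd part -/
def oddPart (n : ℕ) : ℕ := n / 2 ^ n.factorization 2

theorem two_pow_mul_oddPart (n : ℕ) : 2 ^ n.factorization 2 * oddPart n = n :=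
  Nat.ordProj_mul_ordCompl_eq_self n 2

theorem oddPart_odd {n : ℕ} (hn : n ≠ 0) : oddPart n % 2 = 1 := by
  have h := Nat.not_dvd_ordCompl Nat.prime_two hn
  have h' : ¬ 2 ∣ oddPart n := h
  omega

theorem oddPart_two_pow_mul {k r : ℕ} (hr : r % 2 = 1) : oddPart (2 ^ k * r) = r := by
  unfold oddPart
  rw [fact_two_pow_mul hr, if_pos rfl]
  exact Nat.mul_div_cancel_left _ (by positivity)

def InR (N r : ℕ) : Prop := 256 * r ≤ N ∧ N < 512 * r

def Bset (N : ℕ) : Set ℕ :=
  {n | n ≠ 0 ∧ n ≤ N ∧ (∀ p, p ≠ 2 → good (n.factorization p)) ∧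
    ((InR N (oddPart n) → (n.factorization 2 = 0 ∨ n.factorization 2 = 1 ∨
      n.factorization 2 = 3 ∨ n.factorization 2 = 7 ∨ n.factorization 2 = 8)) ∧
     (¬ InR N (oddPart n) → good (n.factorization 2)))}

theorem Bset_free (N : ℕ) : GPFree (Bset N) := by
  rintro a ⟨ha0, haN, ha, ha'⟩ b ⟨hb0, hbN, hb, hb'⟩ c ⟨hc0, hcN, hc, hc'⟩ hab hbc heq
  have hf := gp_fact ha0 hc0 heq
  have hac : ∀ p, p ≠ 2 → a.factorization p = c.factorization p := by
    intro p hp
    exact good_ap _ _ _ (ha p hp) (hb p hp) (hc p hp) (hf p)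
  have hab' : ∀ p, p ≠ 2 → a.factorization p = b.factorization p := by
    intro p hp
    have h1 := hac p hp
    have h2 := hf p
    omega
  have key : ∀ x y : ℕ, x ≠ 0 → y ≠ 0 → (∀ p, p ≠ 2 → x.factorization p = y.factorization p) →
      oddPart x = oddPart y := by
    intro x y hx hy h
    have hox : oddPart x ≠ 0 := by have := oddPart_odd hx; omega
    have hoy : oddPart y ≠ 0 := by have := oddPart_odd hy; omega
    apply Nat.eq_of_factorization_eq hox hoy
    intro p
    have h1 := fact_two_pow_mul (k := x.factorization 2) (oddPart_odd hx) p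
    have h2 := fact_two_pow_mul (k := y.factorization 2) (oddPart_odd hy) p
    rw [two_pow_mul_oddPart] at h1 h2
    by_cases hp : p = 2
    · subst hp
      rw [Nat.factorization_eq_zero_of_not_dvd (n := oddPart x) (by have := oddPart_odd hx; omega),
        Nat.factorization_eq_zero_of_not_dvd (n := oddPart y) (by have := oddPart_odd hy; omega)]
    · rw [if_neg hp] at h1 h2
      rw [← h1, ← h2]
      exact h p hp
  have hoac := key a c ha0 hc0 hac
  have hoab := key a b ha0 hb0 hab'
  have hlt : a.factorization 2 ≠ c.factorization 2 := by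
    intro h
    have : a = c := by
      rw [← two_pow_mul_oddPart a, ← two_pow_mul_oddPart c, hoac, h]
    omega
  have h2 := hf 2
  by_cases hR : InR N (oddPart a)
  · have h3 := ha'.1 hR
    have h4 := hb'.1 (hoab ▸ hR)
    have h5 := hc'.1 (hoac ▸ hR)
    omega
  · have h3 := ha'.2 hR
    have h4 := hb'.2 (hoab ▸ hR)
    have h5 := hc'.2 (hoac ▸ hR)
    exact hlt (good_ap _ _ _ h3 h4 h5 h2)

theorem Bset_count (N : ℕ) : cnt S N + cnt (Rset N) N ≤ cnt (Bset N) N := by
  classical
  unfold cnt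
  set Sf := (Finset.Icc 1 N).filter (fun n => n ∈ S) with hSf
  set Rf := (Finset.Icc 1 N).filter (fun n => n ∈ Rset N) with hRf
  set Bf := (Finset.Icc 1 N).filter (fun n => n ∈ Bset N) with hBf
  set S1 := Sf.filter (fun n => ¬ (n.factorization 2 = 4 ∧ InR N (oddPart n))) with hS1
  set S2 := Sf.filter (fun n => n.factorization 2 = 4 ∧ InR N (oddPart n)) with hS2
  have hS : Sf.card ≤ S1.card + S2.card := by
    have := Finset.card_filter_add_card_filter_not (s := Sf)
      (fun n => n.factorization 2 = 4 ∧ InR N (oddPart n))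
    rw [← hS1, ← hS2] at this
    omega
  have hS2card : S2.card ≤ Rf.card := by
    apply Finset.card_le_card_of_injOn oddPart
    · intro n hn
      have hn := Finset.mem_filter.mp (Finset.mem_coe.mp hn)
      have hn1 := Finset.mem_filter.mp hn.1
      rw [Finset.mem_Icc] at hn1
      obtain ⟨⟨⟨h1, h2⟩, hnS⟩, h4, hR⟩ := And.intro hn1 hn.2
      have hn0 : n ≠ 0 := by omega
      rw [Finset.mem_coe, hRf, Finset.mem_filter, Finset.mem_Icc]
      have hodd := oddPart_odd hn0
      refine ⟨⟨by omega, ?_⟩, hodd, ⟨by omega, ?_⟩, hR.1, hR.2⟩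
      · have := hR.1
        omega
      · intro p
        have h5 := fact_two_pow_mul (k := n.factorization 2) hodd p
        rw [two_pow_mul_oddPart] at h5
        by_cases hp : p = 2
        · subst hp
          rw [Nat.factorization_eq_zero_of_not_dvd (by omega)]
          exact good_zero
        · rw [if_neg hp] at h5
          rw [← h5]
          exact hnS.2 p
    · intro n hn m hm hnm
      have hn := Finset.mem_filter.mp (Finset.mem_coe.mp hn)
      have hm := Finset.mem_filter.mp (Finset.mem_coe.mp hm)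
      rw [← two_pow_mul_oddPart n, ← two_pow_mul_oddPart m, hn.2.1, hm.2.1, hnm]
  have hmemR : ∀ r ∈ Rf, r % 2 = 1 ∧ r ∈ S ∧ 256 * r ≤ N ∧ N < 512 * r := by
    intro r hr
    exact (Finset.mem_filter.mp hr).2
  have hT : ∀ k : ℕ, (k = 7 ∨ k = 8) → ∀ r ∈ Rf, 2 ^ k * r ∈ Bf := by
    intro k hk r hr
    obtain ⟨h1, h2, h3, h4⟩ := hmemR r hr
    have hr0 : r ≠ 0 := h2.1
    rw [hBf, Finset.mem_filter, Finset.mem_Icc]
    have hkle : 2 ^ k * r ≤ N := by
      rcases hk with rfl | rfl <;> norm_num <;> omega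
    have hpos : 2 ^ k * r ≠ 0 := by positivity
    refine ⟨⟨by omega, hkle⟩, hpos, hkle, ?_, ?_, ?_⟩
    · intro p hp
      rw [fact_two_pow_mul h1, if_neg hp]
      exact h2.2 p
    · intro _
      rw [fact_two_pow_mul h1, if_pos rfl]
      omega
    · intro hcon
      rw [oddPart_two_pow_mul h1] at hcon
      exact absurd ⟨h3, h4⟩ hcon
  set T7 := Rf.image (fun r => 2 ^ 7 * r) with hT7
  set T8 := Rf.image (fun r => 2 ^ 8 * r) with hT8
  have hT7c : T7.card = Rf.card := by
    apply Finset.card_image_of_injective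
    intro x y h
    simp only at h
    omega
  have hT8c : T8.card = Rf.card := by
    apply Finset.card_image_of_injective
    intro x y h
    simp only at h
    omega
  have v7 : ∀ n ∈ T7, n.factorization 2 = 7 := by
    intro n hn
    rw [hT7, Finset.mem_image] at hn
    obtain ⟨r, hr, rfl⟩ := hn
    rw [fact_two_pow_mul (hmemR r hr).1, if_pos rfl]
  have v8 : ∀ n ∈ T8, n.factorization 2 = 8 := by
    intro n hn
    rw [hT8, Finset.mem_image] at hn
    obtain ⟨r, hr, rfl⟩ := hn
    rw [fact_two_pow_mul (hmemR r hr).1, if_pos rfl]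
  have v1 : ∀ n ∈ S1, good (n.factorization 2) := by
    intro n hn
    have hn := Finset.mem_filter.mp hn
    have hn1 := Finset.mem_filter.mp hn.1
    exact hn1.2.2 2
  have d12 : Disjoint S1 T7 := by
    rw [Finset.disjoint_left]
    intro n h1 h2
    have h3 := v1 n h1
    rw [v7 n h2] at h3
    exact not_good_seven h3
  have d13 : Disjoint (S1 ∪ T7) T8 := by
    rw [Finset.disjoint_left]
    intro n h1 h2
    rw [Finset.mem_union] at h1
    rcases h1 with h1 | h1
    · have h3 := v1 n h1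
      rw [v8 n h2] at h3
      exact not_good_eight h3
    · have h3 := v7 n h1
      have h4 := v8 n h2
      omega
  have hsub : (S1 ∪ T7) ∪ T8 ⊆ Bf := by
    intro n hn
    rw [Finset.mem_union, Finset.mem_union] at hn
    rcases hn with (hn | hn) | hn
    · have hn := Finset.mem_filter.mp hn
      have hn1 := Finset.mem_filter.mp hn.1
      rw [Finset.mem_Icc] at hn1
      obtain ⟨⟨⟨h1, h2⟩, hnS⟩, h4⟩ := And.intro hn1 hn.2
      rw [hBf, Finset.mem_filter, Finset.mem_Icc]
      refine ⟨⟨h1, h2⟩, hnS.1, h2, fun p _ => hnS.2 p, ?_, fun _ => hnS.2 2⟩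
      intro hR
      have hv4 : n.factorization 2 ≠ 4 := fun h => h4 ⟨h, hR⟩
      have hle : n.factorization 2 ≤ 8 := by
        by_contra hcon
        push Not at hcon
        have h5 : 2 ^ 9 * oddPart n ≤ n := by
          calc 2 ^ 9 * oddPart n ≤ 2 ^ n.factorization 2 * oddPart n := by
                apply Nat.mul_le_mul_right
                exact Nat.pow_le_pow_right (by norm_num) hcon
            _ = n := two_pow_mul_oddPart n
        have h6 := hR.2
        norm_num at h5
        omega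
      have := good_le_eight _ (hnS.2 2) hle
      omega
    · rw [hT7, Finset.mem_image] at hn
      obtain ⟨r, hr, rfl⟩ := hn
      exact hT 7 (Or.inl rfl) r hr
    · rw [hT8, Finset.mem_image] at hn
      obtain ⟨r, hr, rfl⟩ := hn
      exact hT 8 (Or.inr rfl) r hr
  have hcard := Finset.card_le_card hsub
  rw [Finset.card_union_of_disjoint d13, Finset.card_union_of_disjoint d12, hT7c, hT8c] at hcard
  omega

theorem odd_count (a b : ℕ) :
    (b - a) / 2 ≤ ((Finset.Ioc a b).filter (fun r => r % 2 = 1)).card := by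
  have : (Finset.range ((b - a) / 2)).card ≤
      ((Finset.Ioc a b).filter (fun r => r % 2 = 1)).card := by
    apply Finset.card_le_card_of_injOn (fun i => a + 1 + (a % 2) + 2 * i)
    · intro i hi
      rw [Finset.mem_coe, Finset.mem_range] at hi
      rw [Finset.mem_coe, Finset.mem_filter, Finset.mem_Ioc]
      simp only
      omega
    · intro i _ j _ h
      simp only at h
      omega
  simpa using this

/-- Many odd squarefree numbers, hence many elements of `Rset N`. -/
theorem R_count (N : ℕ) (hN : 2 ^ 26 ≤ N) : (N : ℝ) / 4096 ≤ cnt (Rset N) N := by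
  classical
  set a := N / 512 with ha
  set b := N / 256 with hb
  have hab : a ≤ b := by omega
  set O := (Finset.Ioc a b).filter (fun r => r % 2 = 1) with hO
  have hOc : (b - a) / 2 ≤ O.card := odd_count a b
  set E := Nat.sqrt N with hE
  have hcover : O.card ≤ cnt (Rset N) N +
      ∑ e ∈ Finset.Ioc 0 E, ((b - a) / (2 * (2 * e + 1) ^ 2) + 1) := by
    have h1 : O ⊆ ((Finset.Icc 1 N).filter (fun n => n ∈ Rset N)) ∪
        (Finset.Ioc 0 E).biUnion (fun e => O.filter (fun r => (2 * e + 1) ^ 2 ∣ r)) := by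
      intro r hr
      have hr' := Finset.mem_filter.mp hr
      rw [Finset.mem_Ioc] at hr'
      obtain ⟨⟨h1, h2⟩, hodd⟩ := hr'
      rw [Finset.mem_union]
      by_cases hS : r ∈ S
      · left
        rw [Finset.mem_filter, Finset.mem_Icc]
        exact ⟨⟨by omega, by omega⟩, hodd, hS, by omega, by omega⟩
      · right
        have hr0 : r ≠ 0 := by omega
        have : ∃ p, ¬ good (r.factorization p) := by
          by_contra hcon
          push Not at hcon
          exact hS ⟨hr0, hcon⟩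
        obtain ⟨p, hp⟩ := this
        have hge2 : 2 ≤ r.factorization p := by
          by_contra hlt
          have : r.factorization p = 0 ∨ r.factorization p = 1 := by omega
          rcases this with h | h
          · rw [h] at hp; exact hp good_zero
          · rw [h] at hp; exact hp good_one
        have hpp : p.Prime := by
          by_contra hnp
          rw [Nat.factorization_eq_zero_of_not_prime r hnp] at hge2
          omega
        have hdvd : p ^ 2 ∣ r := by
          exact (pow_dvd_pow p hge2).trans (Nat.ordProj_dvd r p)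
        have hpodd : p % 2 = 1 := by
          rcases hpp.eq_two_or_odd with h | h
          · exfalso
            subst h
            obtain ⟨t, ht⟩ := hdvd
            omega
          · exact h
        have hp2 := hpp.two_le
        rw [Finset.mem_biUnion]
        refine ⟨p / 2, ?_, ?_⟩
        · rw [Finset.mem_Ioc]
          refine ⟨by omega, ?_⟩
          have h3 : p ^ 2 ≤ N := (Nat.le_of_dvd (by omega) hdvd).trans (by omega)
          have h4 : p ≤ E := by rw [hE, Nat.le_sqrt']; exact h3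
          omega
        · rw [Finset.mem_filter]
          refine ⟨hr, ?_⟩
          have : 2 * (p / 2) + 1 = p := by omega
          rw [this]
          exact hdvd
    calc O.card ≤ _ := Finset.card_le_card h1
      _ ≤ _ := Finset.card_union_le _ _
      _ ≤ _ := by
        unfold cnt
        apply Nat.add_le_add_left
        refine le_trans Finset.card_biUnion_le ?_
        apply Finset.sum_le_sum
        intro e _
        apply card_congr_le
        · intro x hx
          rw [Finset.mem_filter, hO, Finset.mem_filter, Finset.mem_Ioc] at hx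
          exact hx.1.1
        · have key : ∀ x, x % 2 = 1 → (2 * e + 1) ^ 2 ∣ x →
              x ≡ (2 * e + 1) ^ 2 [MOD (2 * (2 * e + 1) ^ 2)] := by
            rintro x hx ⟨k, rfl⟩
            have hk : k % 2 = 1 := by
              rw [Nat.mul_mod] at hx
              rcases Nat.mod_two_eq_zero_or_one k with h | h
              · rw [h] at hx; simp at hx
              · exact h
            obtain ⟨l, hl⟩ : ∃ l, k = 2 * l + 1 := ⟨k / 2, by omega⟩
            subst hl
            have : (2 * e + 1) ^ 2 * (2 * l + 1) =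
                (2 * e + 1) ^ 2 + (2 * (2 * e + 1) ^ 2) * l := by ring
            rw [this]
            exact Nat.ModEq.symm (Nat.modEq_of_dvd (by push_cast; exact ⟨l, by ring⟩))
          intro x hx y hy
          rw [Finset.mem_filter, hO, Finset.mem_filter] at hx hy
          exact (key x hx.1.2 hx.2).trans (key y hy.1.2 hy.2).symm
  have hsum : ((∑ e ∈ Finset.Ioc 0 E, ((b - a) / (2 * (2 * e + 1) ^ 2) + 1) : ℕ) : ℝ) ≤
      ((b - a : ℕ) : ℝ) / 4 + E := by
    have hE1 : 1 ≤ E := by
      rw [hE, Nat.le_sqrt]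
      omega
    rw [Finset.sum_add_distrib]
    push_cast
    apply add_le_add
    · have h1 : ∑ e ∈ Finset.Ioc 0 E, (((b - a) / (2 * (2 * e + 1) ^ 2) : ℕ) : ℝ) ≤
          ∑ e ∈ Finset.Ioc 0 E, ((b - a : ℕ) : ℝ) / 8 * ((e : ℝ) ^ 2)⁻¹ := by
        apply Finset.sum_le_sum
        intro e he
        rw [Finset.mem_Ioc] at he
        have hepos : (0 : ℝ) < e := by exact_mod_cast he.1
        calc (((b - a) / (2 * (2 * e + 1) ^ 2) : ℕ) : ℝ) ≤
              ((b - a : ℕ) : ℝ) / ((2 * (2 * e + 1) ^ 2 : ℕ) : ℝ) := Nat.cast_div_le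
          _ ≤ ((b - a : ℕ) : ℝ) / (8 * (e : ℝ) ^ 2) := by
              apply div_le_div_of_nonneg_left (by positivity) (by positivity)
              push_cast
              nlinarith
          _ = _ := by
              field_simp
      have h2 : ∑ e ∈ Finset.Ioc 0 E, ((e : ℝ) ^ 2)⁻¹ ≤ 2 := by
        have h3 : Finset.Ioc 0 E = insert 1 (Finset.Ioc 1 E) := by
          ext x
          rw [Finset.mem_insert, Finset.mem_Ioc, Finset.mem_Ioc]
          omega
        rw [h3, Finset.sum_insert (by simp)]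
        have h4 := sum_Ioc_inv_sq_le_sub (α := ℝ) (k := 1) one_ne_zero hE1
        have h5 : (0 : ℝ) ≤ ((E : ℕ) : ℝ)⁻¹ := by positivity
        norm_num at h4 ⊢
        linarith
      rw [← Finset.mul_sum] at h1
      have h6 : (0 : ℝ) ≤ ((b - a : ℕ) : ℝ) / 8 := by positivity
      nlinarith
    · simp
  have hba : (N : ℝ) / 512 - 1 ≤ ((b - a : ℕ) : ℝ) := by
    have h1 : N ≤ 512 * (b - a) + 512 := by omega
    have h2 : (N : ℝ) ≤ 512 * ((b - a : ℕ) : ℝ) + 512 := by exact_mod_cast h1
    linarith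
  have hE2 : (E : ℝ) ≤ N / 8192 := by
    have h1 : E * E ≤ N := Nat.sqrt_le N
    have h2 : 8192 ≤ E := by
      rw [hE, Nat.le_sqrt]
      omega
    have h3 : E * 8192 ≤ N := le_trans (Nat.mul_le_mul_left _ h2) h1
    rw [le_div_iff₀ (by norm_num)]
    exact_mod_cast h3
  have hOr : ((b - a : ℕ) : ℝ) / 2 - 1 ≤ O.card := by
    have h1 : b - a ≤ 2 * O.card + 1 := by omega
    have h2 : ((b - a : ℕ) : ℝ) ≤ 2 * O.card + 1 := by exact_mod_cast h1
    linarith
  have hcover' : (O.card : ℝ) ≤ cnt (Rset N) N +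
      ((∑ e ∈ Finset.Ioc 0 E, ((b - a) / (2 * (2 * e + 1) ^ 2) + 1) : ℕ) : ℝ) := by
    exact_mod_cast hcover
  have hN' : 67108864 ≤ N := by norm_num at hN; exact hN
  have hNr : (67108864 : ℝ) ≤ N := by exact_mod_cast hN'
  linarith

theorem S_bound {ε : ℝ} (hε : 0 < ε) : ∃ N0 : ℕ, ∀ N ≥ N0,
    (cnt S N : ℝ) ≤ (alphaBar - 1 / 4096 + ε) * N := by
  obtain ⟨N0, hN0⟩ := finite_bound hε
  refine ⟨max N0 (2 ^ 26), fun N hN => ?_⟩
  have h1 := hN0 N (le_trans (le_max_left _ _) hN) (Bset N) (Bset_free N)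
  have h2 := R_count N (le_trans (le_max_right _ _) hN)
  have h3 : (cnt S N : ℝ) + cnt (Rset N) N ≤ cnt (Bset N) N := by exact_mod_cast Bset_count N
  nlinarith

theorem density_le_alpha_nonempty :
    {d : ℝ | ∃ A : Set ℕ, 0 ∉ A ∧ GPFree A ∧ HasDensity A d}.Nonempty := by
  refine ⟨0, ∅, by simp, ?_, ?_⟩
  · intro a ha
    exact absurd ha (by simp)
  · unfold HasDensity
    have : (fun N : ℕ => (cnt (∅ : Set ℕ) N : ℝ) / N) = fun _ => 0 := by
      funext N
      simp [cnt]
    rw [this]
    exact tendsto_const_nhds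

/-- The maximal density of geometric-progression-free sets that possess an asymptotic density is
strictly smaller than the maximal upper density of geometric-progression-free sets. -/
theorem result : alpha < alphaBar := by
  by_contra hcon
  push Not at hcon
  -- choose the truncation level of the square part
  obtain ⟨ρ, hρ⟩ := exists_nat_gt (8 * 4096 : ℝ)
  have hρpos : 0 < ρ := by
    have : (0 : ℝ) < ρ := lt_trans (by norm_num) hρ
    exact_mod_cast this
  obtain ⟨C, hC⟩ := compare ρ hρpos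
  obtain ⟨M, hM⟩ := exists_nat_gt (max (32 * 4096 * (C : ℝ)) (8 * 4096))
  have hM1 : 32 * 4096 * (C : ℝ) < M := lt_of_le_of_lt (le_max_left _ _) hM
  have hM2 : (8 * 4096 : ℝ) < M := lt_of_le_of_lt (le_max_right _ _) hM
  have hMr : (1 : ℝ) ≤ M := by linarith
  have hMpos : 1 ≤ M := by exact_mod_cast hMr
  have hMr0 : (0 : ℝ) < M := by linarith
  have hMsq : 1 / (M : ℝ) ^ 2 ≤ 1 / (8 * 4096) := by
    apply one_div_le_one_div_of_le (by norm_num)
    nlinarith
  -- a set with density close to alphaBar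
  have hlt : alpha - 1 / (2 * (M : ℝ) ^ 2) < alpha := by
    have : (0 : ℝ) < 1 / (2 * (M : ℝ) ^ 2) := by positivity
    linarith
  obtain ⟨d, ⟨A, hA0, hA, hd⟩, hdlt⟩ := exists_lt_of_lt_csSup density_le_alpha_nonempty hlt
  have hnear : ∃ N1 : ℕ, ∀ N ≥ N1, (alphaBar - 1 / (M : ℝ) ^ 2) * N ≤ cnt A N := by
    have h1 : alphaBar - 1 / (M : ℝ) ^ 2 < d := by
      have h2 : 1 / (2 * (M : ℝ) ^ 2) < 1 / (M : ℝ) ^ 2 := by
        apply one_div_lt_one_div_of_lt (by positivity)
        nlinarith [sq_nonneg (M : ℝ)]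
      linarith
    have h3 := hd.eventually (lt_mem_nhds h1)
    rw [Filter.eventually_atTop] at h3
    obtain ⟨N1, hN1⟩ := h3
    refine ⟨max N1 1, fun N hN => ?_⟩
    have h4 := hN1 N (le_trans (le_max_left _ _) hN)
    have h5 : (0 : ℝ) < N := by
      exact_mod_cast lt_of_lt_of_le Nat.one_pos (le_trans (le_max_right _ _) hN)
    rw [lt_div_iff₀ h5] at h4
    exact h4.le
  obtain ⟨K, hK⟩ := U_bound hA M hMpos hnear
  obtain ⟨N1, hN1⟩ := hnear
  obtain ⟨N2, hN2⟩ := S_bound (ε := 1 / (8 * 4096)) (by norm_num)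
  obtain ⟨N3, hN3⟩ := exists_nat_gt (2 * 4096 * ((C : ℝ) * K))
  set N := max (max N1 N2) (max N3 1) with hN
  have e1 := hN1 N (le_trans (le_max_left _ _) (le_max_left _ _))
  have e2 := hN2 N (le_trans (le_max_right _ _) (le_max_left _ _))
  have e3 : (N3 : ℝ) ≤ N := by
    exact_mod_cast le_trans (le_max_left _ _) (le_max_right _ _)
  have e4 := hC A hA0 hA N
  have e5 := hK N
  have hNpos : (0 : ℝ) < N := by
    have : 1 ≤ N := le_trans (le_max_right _ _) (le_max_right _ _)
    exact_mod_cast this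
  have hCr : (0 : ℝ) ≤ C := Nat.cast_nonneg C
  have e6 : (C : ℝ) * cnt (Uset A) N ≤ C * (4 / M * N + K) := by gcongr
  have e7 : (C : ℝ) * (4 / M) ≤ 1 / (8 * 4096) := by
    rw [← mul_div_assoc, div_le_iff₀ hMr0]
    linarith
  have e8 : (C : ℝ) * (4 / M * N) ≤ 1 / (8 * 4096) * N := by
    rw [← mul_assoc]
    gcongr
  have e9 : (N : ℝ) / ρ ≤ 1 / (8 * 4096) * N := by
    rw [div_le_iff₀ (by linarith)]
    nlinarith
  have e10 : (1 / (M : ℝ) ^ 2) * N ≤ 1 / (8 * 4096) * N := by gcongr
  nlinarith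

end Pool.Agent.Results.MP_9f86c8_nt.StrictInequality
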